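import Pool.Agent.PnPoly.NC.Window

/-!
# Choice of the parameters
-/

open Finset Filter
open Pool.Agent.HL26

namespace Pool.Agent.PnPoly.NC

lemma tendsto_log_natCast : Tendsto (fun N : ℕ => Real.log N) atTop atTop :=
  Real.tendsto_log_atTop.comp tendsto_natCast_atTop_atTop

lemma log_pow_le_nat (m : ℕ) {ε : ℝ} (hε : 0 < ε) :
    ∀ᶠ N : ℕ in atTop, Real.log N ^ m ≤ ε * N := by
  have h := (Real.isLittleO_pow_log_id_atTop (n := m)).bound hε
  have h2 := tendsto_natCast_atTop_atTop (R := ℝ) |>.eventually h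
  filter_upwards [h2, tendsto_log_natCast.eventually_ge_atTop 0] with N hN hl
  rw [Real.norm_of_nonneg (by positivity), id, Real.norm_of_nonneg (by positivity)] at hN
  exact hN

/-- Chebyshev: `p_n` is at most a constant times `n log n`. -/
lemma np_le : ∀ᶠ M : ℕ in atTop, (np M : ℝ) ≤ 9 * (M * Real.log M) := by
  have e1 := log_pow_le_nat 1 (show (0:ℝ) < 1 / 9 by norm_num)
  filter_upwards [e1, tendsto_log_natCast.eventually_ge_atTop 2, eventually_ge_atTop 100] with M h1 h2 h3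
  rw [pow_one] at h1
  have hM : (100:ℝ) ≤ M := by exact_mod_cast h3
  set l := Real.log M with hl
  set y := ⌈8 * (M * l)⌉₊ with hy
  have hy1 : 8 * (M * l) ≤ y := Nat.le_ceil _
  have hy2 : (y:ℝ) ≤ 8 * (M * l) + 1 := (Nat.ceil_lt_add_one (by positivity)).le
  have hMl : 200 ≤ M * l := by nlinarith
  have hy0 : (1600:ℝ) ≤ y := by linarith
  have hyM : (y:ℝ) ≤ M * M := by nlinarith
  have hlogy : Real.log y ≤ 2 * l := by
    have := Real.log_le_log (by linarith) hyM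
    rw [Real.log_mul (by positivity) (by positivity)] at this
    linarith
  have hlogy0 : 0 < Real.log y := Real.log_pos (by linarith)
  have hpi := Chebyshev.pi_ge y
  have hlogy1 : Real.log (y + 1) ≤ y / 10 := by
    have hsq : Real.log (y + 1) ≤ 2 * Real.sqrt (y + 1) := by
      have h5 := Real.log_le_sub_one_of_pos (show (0:ℝ) < Real.sqrt (y + 1) by positivity)
      rw [Real.log_sqrt (by positivity)] at h5
      linarith
    have h6 : Real.sqrt (y + 1) ≤ y / 20 := by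
      rw [Real.sqrt_le_left (by positivity)]
      nlinarith
    linarith
  have hlog2 := Real.log_two_gt_d9
  have h7 : (y:ℝ) / 2 ≤ y * Real.log 2 - Real.log (y + 1) := by nlinarith
  have h8 : (M:ℝ) + 1 ≤ (Nat.primeCounting y : ℝ) := by
    refine le_trans ?_ hpi
    rw [le_div_iff₀ hlogy0]
    have : ((M:ℝ) + 1) * Real.log y ≤ ((M:ℝ) + 1) * (2 * l) := by gcongr
    nlinarith
  have h9 : M < Nat.count Nat.Prime (y + 1) := by
    have : M + 1 ≤ Nat.primeCounting y := by exact_mod_cast h8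
    unfold Nat.primeCounting Nat.primeCounting' at this
    omega
  have h10 : np M < y + 1 := Nat.nth_lt_of_lt_count h9
  have h11 : (np M : ℝ) ≤ y := by exact_mod_cast (by omega : np M ≤ y)
  linarith

theorem nonconc_set (k : ℕ) (hk : 1 ≤ k) : ∃ C : ℝ, 0 < C ∧
    ∀ᶠ N : ℕ in atTop, ∀ q : ℕ, ∀ Q : ℝ, 1 ≤ q → 1 ≤ Q → Q ≤ q → Q ≤ Real.log N →
    ∀ A : Finset ℕ, A ⊆ range N →
    (∀ j : Fin (k + 1) → ℕ, StrictMono j → ∀ n, (∀ i, n + j i ∈ A) →
      (q : ℤ) ∣ ∑ i, wt (fun i => (j i : ℤ)) i * (np (n + j i) : ℤ)) →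
    (A.card : ℝ) ≤ C * N * Q ^ (-(1 / (28 * (k:ℝ) ^ 2))) := by
  obtain ⟨C, hC, x0, hmain⟩ := window_main k hk
  have hk1 : (1:ℝ) ≤ k := by exact_mod_cast hk
  set c : ℝ := 1 / (28 * (k:ℝ) ^ 2) with hc
  have hc0 : 0 < c := by positivity
  have hc28 : c ≤ 1 / 28 := by
    rw [hc]
    apply one_div_le_one_div_of_le (by norm_num)
    nlinarith
  refine ⟨2 * k + 72 + C * 36 * 5 ^ k + 1, by positivity, ?_⟩
  have e0 : ∀ᶠ N : ℕ in atTop, (np (2 * N) : ℝ) ≤ 9 * ((2 * N : ℕ) * Real.log (2 * N : ℕ)) :=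
    (tendsto_id.const_mul_atTop' (by norm_num : 0 < 2)).eventually np_le
  filter_upwards [e0, log_pow_le_nat 3 (show (0:ℝ) < 1 / 6 by norm_num),
    log_pow_le_nat 1 (show (0:ℝ) < 1 / 36 by norm_num),
    tendsto_log_natCast.eventually_ge_atTop (k + 5),
    tendsto_natCast_atTop_atTop (R := ℝ) |>.eventually_ge_atTop x0, eventually_ge_atTop 100]
    with N hnp hl3 hl1 hlk hNx0 hN100
  intro q Q hq hq1 hQq hqN A hA hprop
  rw [pow_one] at hl1
  set l := Real.log N with hl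
  have hN0 : (100:ℝ) ≤ N := by exact_mod_cast hN100
  have hl5 : 6 ≤ l := by linarith
  have hq0 : (0:ℝ) < Q := by linarith
  have hqc1 : (1:ℝ) ≤ Q ^ c := Real.one_le_rpow hq1 hc0.le
  set J := ⌊Q ^ c⌋₊ with hJ
  have hJ1 : 1 ≤ J := Nat.le_floor (by exact_mod_cast hqc1)
  have hJ1' : (1:ℝ) ≤ J := by exact_mod_cast hJ1
  have hJle : (J:ℝ) ≤ Q ^ c := Nat.floor_le (by linarith)
  have hJge : Q ^ c ≤ 2 * J := by
    have := (Nat.lt_floor_add_one (Q ^ c)).le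
    rw [← hJ] at this
    linarith
  have hpow : ∀ m : ℕ, (m:ℝ) * c ≤ 1 → (J:ℝ) ^ m ≤ Q ^ ((m:ℝ) * c) := by
    intro m _
    calc (J:ℝ) ^ m ≤ (Q ^ c) ^ m := pow_le_pow_left₀ (by linarith) hJle m
      _ = Q ^ ((m:ℝ) * c) := by rw [← Real.rpow_natCast, ← Real.rpow_mul hq0.le, mul_comm]
  have hpow7 : ∀ m : ℕ, m ≤ 7 * k ^ 2 → (J:ℝ) ^ m ≤ Q ^ ((1:ℝ) / 4) := by
    intro m hm
    have h1 : (J:ℝ) ^ m ≤ (J:ℝ) ^ (7 * k ^ 2) := pow_le_pow_right₀ hJ1' hm
    have h2 : ((7 * k ^ 2 : ℕ) : ℝ) * c = 1 / 4 := by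
      rw [hc]; push_cast; field_simp; norm_num
    have h3 := hpow (7 * k ^ 2) (by rw [h2]; norm_num)
    rw [h2] at h3
    exact h1.trans h3
  have hq14 : Q ^ ((1:ℝ) / 4) ≤ Q := by
    calc Q ^ ((1:ℝ) / 4) ≤ Q ^ (1:ℝ) := Real.rpow_le_rpow_of_exponent_le hq1 (by norm_num)
      _ = Q := Real.rpow_one _
  have hk2 : 2 * k + 4 ≤ 7 * k ^ 2 := by nlinarith
  have hJq : (J:ℝ) ≤ Q := by
    have := hpow7 1 (by nlinarith)
    rw [pow_one] at this
    exact this.trans hq14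
  have hJN : J ≤ N := by
    have : (J:ℝ) ≤ N := by
      have : l ≤ N := by linarith
      linarith
    exact_mod_cast this
  -- the size of x
  have hxN : (N:ℝ) ≤ np (N + J) := by
    have := lt_np (N + J)
    exact_mod_cast (by omega : N ≤ np (N + J))
  have hxle : (np (N + J) : ℝ) ≤ 36 * (N * l) := by
    have h1 : np (N + J) ≤ np (2 * N) := np_strictMono.monotone (by omega)
    have h2 : (np (N + J) : ℝ) ≤ np (2 * N) := by exact_mod_cast h1
    refine h2.trans (hnp.trans ?_)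
    push_cast
    have h3 : Real.log (2 * N) ≤ 2 * l := by
      rw [Real.log_mul (by norm_num) (by positivity)]
      have : Real.log 2 ≤ 1 := by have := Real.log_two_lt_d9; linarith
      linarith
    have : 2 * (N:ℝ) * Real.log (2 * N) ≤ 2 * (N:ℝ) * (2 * l) := by gcongr
    linarith
  have hm := hmain N J q (⌈(J:ℝ) ^ (k + 3) * Real.log (np (N + J))⌉₊) Q
  set x : ℝ := (np (N + J) : ℝ) with hx
  have hx0 : 0 < x := by linarith
  have hlx : l ≤ Real.log x := Real.log_le_log (by positivity) hxN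
  have hlx0 : 0 < Real.log x := by linarith
  have hlxu : Real.log x ≤ 2 * l := by
    have h1 : x ≤ N * N := by nlinarith
    have := Real.log_le_log hx0 h1
    rw [Real.log_mul (by positivity) (by positivity)] at this
    linarith
  set L := ⌈(J:ℝ) ^ (k + 3) * Real.log x⌉₊ with hL
  have hJk : (1:ℝ) ≤ (J:ℝ) ^ (k + 3) := one_le_pow₀ hJ1'
  have hL1 : (J:ℝ) ^ (k + 3) * Real.log x ≤ L := Nat.le_ceil _
  have hL2 : (L:ℝ) ≤ (J:ℝ) ^ (k + 3) * Real.log x + 1 := (Nat.ceil_lt_add_one (by positivity)).le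
  have hLl : l ≤ L := by nlinarith
  have hkL : k + 1 ≤ L := by
    have : ((k + 1 : ℕ) : ℝ) ≤ L := by push_cast; linarith
    exact_mod_cast this
  have hqL : Q ≤ L := by linarith
  have hm2 := hm hkL hq hq0 hQq hqL hJ1 (by linarith) A hA (fun j hj _ n hn => hprop j hj n hn)
  have hJ0 : (0:ℝ) < J := by linarith
  have hL0 : (0:ℝ) < L := by linarith
  have hxl : x / Real.log x ≤ 36 * N := by
    rw [div_le_iff₀ hlx0]
    have : (N:ℝ) * l ≤ N * Real.log x := by gcongr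
    nlinarith
  have hqc0 : 0 < Q ^ (-c) := Real.rpow_pos_of_pos hq0 _
  have hJinv : (1:ℝ) / J ≤ 2 * Q ^ (-c) := by
    rw [Real.rpow_neg hq0.le, ← div_eq_mul_inv, div_le_div_iff₀ hJ0 (by linarith)]
    linarith
  have hJ3 : (J:ℝ) ^ (k + 3) ≤ Q := (hpow7 (k + 3) (by nlinarith)).trans hq14
  -- term 1 and term L
  have t1 : (J:ℝ) + L ≤ N * Q ^ (-c) := by
    have h1 : (J:ℝ) + L ≤ 6 * l ^ 2 := by
      have h2 : (J:ℝ) ^ (k + 3) * Real.log x ≤ Q * (2 * l) := mul_le_mul hJ3 hlxu hlx0.le hq0.le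
      have h3 : Q * (2 * l) ≤ l * (2 * l) := by gcongr
      nlinarith
    have h4 : 6 * l ^ 2 ≤ N / l := by
      rw [le_div_iff₀ (by linarith)]
      have h7 : 6 * l ^ 2 * l = 6 * l ^ 3 := by ring
      linarith
    have h5 : (N:ℝ) / l ≤ N * Q ^ (-c) := by
      rw [div_eq_mul_inv]
      apply mul_le_mul_of_nonneg_left _ (by positivity)
      calc l⁻¹ ≤ Q⁻¹ := inv_anti₀ hq0 hqN
        _ = Q ^ (-1 : ℝ) := by rw [Real.rpow_neg_one]
        _ ≤ Q ^ (-c) := Real.rpow_le_rpow_of_exponent_le hq1 (by linarith)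
    linarith
  -- term kN/J
  have t2 : (k:ℝ) * N / J ≤ 2 * k * (N * Q ^ (-c)) := by
    calc (k:ℝ) * N / J = k * N * (1 / J) := by ring
      _ ≤ k * N * (2 * Q ^ (-c)) := by gcongr
      _ = _ := by ring
  -- term J x / L
  have t3 : (J:ℝ) * x / L ≤ 72 * (N * Q ^ (-c)) := by
    have h1 : (J:ℝ) * x / L ≤ (1 / J) * (x / Real.log x) := by
      rw [div_le_iff₀ hL0]
      have h2 : (J:ℝ) ^ 2 ≤ (J:ℝ) ^ (k + 3) := pow_le_pow_right₀ hJ1' (by omega)
      have h3 : (J:ℝ) ^ 2 * Real.log x ≤ L := (mul_le_mul_of_nonneg_right h2 hlx0.le).trans hL1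
      calc (J:ℝ) * x = (1 / J) * (x / Real.log x) * ((J:ℝ) ^ 2 * Real.log x) := by
            field_simp
        _ ≤ (1 / J) * (x / Real.log x) * L := mul_le_mul_of_nonneg_left h3 (by positivity)
    calc (J:ℝ) * x / L ≤ (1 / J) * (x / Real.log x) := h1
      _ ≤ (2 * Q ^ (-c)) * (36 * N) := mul_le_mul hJinv hxl (by positivity) (by positivity)
      _ = _ := by ring
  -- main term
  have t4 : (J:ℝ) ^ (k + 1) * (C * Real.sqrt ((J:ℝ) ^ (k * k) / Q) *
      ((2 * L + 1) / Real.log x) ^ k * (x / Real.log x)) ≤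
      C * 36 * 5 ^ k * (N * Q ^ (-c)) := by
    have h1 : (2 * (L:ℝ) + 1) / Real.log x ≤ 5 * (J:ℝ) ^ (k + 3) := by
      rw [div_le_iff₀ hlx0]
      nlinarith
    have h2 : ((2 * (L:ℝ) + 1) / Real.log x) ^ k ≤ 5 ^ k * (J:ℝ) ^ (k * (k + 3)) := by
      calc ((2 * (L:ℝ) + 1) / Real.log x) ^ k ≤ (5 * (J:ℝ) ^ (k + 3)) ^ k :=
            pow_le_pow_left₀ (by positivity) h1 k
        _ = _ := by rw [mul_pow, ← pow_mul, mul_comm (k + 3) k]
    have h3 : Real.sqrt ((J:ℝ) ^ (k * k) / Q) ≤ (J:ℝ) ^ (k * k) * Q ^ (-(1:ℝ) / 2) := by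
      rw [Real.sqrt_div (by positivity), div_eq_mul_inv]
      have h4 : (Real.sqrt Q)⁻¹ = Q ^ (-(1:ℝ) / 2) := by
        rw [Real.sqrt_eq_rpow, ← Real.rpow_neg hq0.le]; norm_num
      rw [h4]
      apply mul_le_mul_of_nonneg_right _ (by positivity)
      rw [Real.sqrt_le_left (by positivity)]
      have : (1:ℝ) ≤ (J:ℝ) ^ (k * k) := one_le_pow₀ hJ1'
      nlinarith
    have h5 : (J:ℝ) ^ (k + 1) * ((J:ℝ) ^ (k * k) * (J:ℝ) ^ (k * (k + 3))) ≤ Q ^ ((1:ℝ) / 4) := by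
      rw [← pow_add, ← pow_add]
      exact hpow7 _ (by nlinarith)
    have h6 : Q ^ ((1:ℝ) / 4) * Q ^ (-(1:ℝ) / 2) ≤ Q ^ (-c) := by
      rw [← Real.rpow_add hq0]
      exact Real.rpow_le_rpow_of_exponent_le hq1 (by linarith)
    calc (J:ℝ) ^ (k + 1) * (C * Real.sqrt ((J:ℝ) ^ (k * k) / Q) *
      ((2 * L + 1) / Real.log x) ^ k * (x / Real.log x))
        ≤ (J:ℝ) ^ (k + 1) * (C * ((J:ℝ) ^ (k * k) * Q ^ (-(1:ℝ) / 2)) *
      (5 ^ k * (J:ℝ) ^ (k * (k + 3))) * (36 * N)) := by gcongr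
      _ = C * 36 * 5 ^ k * N * (((J:ℝ) ^ (k + 1) * ((J:ℝ) ^ (k * k) * (J:ℝ) ^ (k * (k + 3)))) *
          Q ^ (-(1:ℝ) / 2)) := by ring
      _ ≤ C * 36 * 5 ^ k * N * (Q ^ ((1:ℝ) / 4) * Q ^ (-(1:ℝ) / 2)) := by gcongr
      _ ≤ C * 36 * 5 ^ k * N * Q ^ (-c) := by gcongr
      _ = _ := by ring
  have hfin : (A.card : ℝ) ≤ J + k * N / J + (J * x / L + L + (J:ℝ) ^ (k + 1) *
      (C * Real.sqrt ((J:ℝ) ^ (k * k) / Q) * ((2 * L + 1) / Real.log x) ^ k *
      (x / Real.log x))) := by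
    rw [← mul_le_mul_iff_right₀ hJ0]
    refine hm2.trans (le_of_eq ?_)
    field_simp
  calc (A.card : ℝ) ≤ _ := hfin
    _ ≤ N * Q ^ (-c) + 2 * k * (N * Q ^ (-c)) + 72 * (N * Q ^ (-c)) +
        C * 36 * 5 ^ k * (N * Q ^ (-c)) := by linarith
    _ = _ := by ring

end Pool.Agent.PnPoly.NC
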