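import Pool.Agent.PnPoly.NC.Param

/-!
# The primes do not concentrate on a polynomial residue curve
-/

open Finset Filter

namespace Pool.Agent.PnPoly.NC

theorem nonconc (d : ℕ) : ∃ C : ℝ, 0 < C ∧ ∀ N q : ℕ, ∀ Q : ℝ, 1 ≤ q →
    1 ≤ Q → Q ≤ q → Q ≤ Real.log N → ∀ P : Polynomial ℚ, P.natDegree ≤ d → ∀ A : Finset ℕ, A ⊆ range N →
    (∀ n ∈ A, ∃ z : ℤ, (np n : ℚ) + P.eval (n : ℚ) = q * z) →
    (A.card : ℝ) ≤ C * N * Q ^ (-(1 / (28 * ((d:ℝ) + 1) ^ 2))) := by
  obtain ⟨C, hC, h⟩ := nonconc_set (d + 1) (by omega)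
  push_cast at h
  set c : ℝ := 1 / (28 * ((d:ℝ) + 1) ^ 2) with hc
  have hd : (0:ℝ) ≤ d := by positivity
  have hc1 : c ≤ 1 := by
    rw [hc, div_le_one (by positivity)]
    nlinarith
  rw [eventually_atTop] at h
  obtain ⟨N0, h⟩ := h
  refine ⟨C + N0, by positivity, ?_⟩
  intro N q Q hq hq1 hQq hqN P hP A hA hPA
  have hq0 : (0:ℝ) < Q := by linarith
  have hqc0 : 0 < Q ^ (-c) := Real.rpow_pos_of_pos hq0 _
  by_cases hN : N0 ≤ N
  · have h1 := h N hN q Q hq hq1 hQq hqN A hA ?_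
    · refine h1.trans ?_
      have : (0:ℝ) ≤ N0 * N * Q ^ (-c) := by positivity
      linarith [add_mul C (N0:ℝ) N, add_mul (C * N) (N0 * N) (Q ^ (-c))]
    · intro j hj n hn
      choose z hz using fun i => hPA _ (hn i)
      set v : Fin (d + 1 + 1) → ℤ := fun i => (j i : ℤ) with hv
      refine ⟨∑ i, wt v i * z i, ?_⟩
      have h2 := wt_sum_eval v P (by omega) (n : ℚ)
      have h3 : ∑ i, ((wt v i : ℤ) : ℚ) * ((np (n + j i) : ℚ)) = q * ∑ i, ((wt v i : ℤ) : ℚ) * z i := by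
        have h4 : ∀ i, (np (n + j i) : ℚ) = q * z i - P.eval ((n : ℚ) + (v i : ℤ)) := by
          intro i
          have := hz i
          rw [hv]
          push_cast at this ⊢
          linarith
        calc ∑ i, ((wt v i : ℤ) : ℚ) * ((np (n + j i) : ℚ)) =
            ∑ i, (q * (((wt v i : ℤ) : ℚ) * z i) - ((wt v i : ℤ) : ℚ) * P.eval ((n : ℚ) + (v i : ℤ))) := by
              refine Finset.sum_congr rfl fun i _ => ?_
              rw [h4 i]; ring
          _ = _ := by rw [Finset.sum_sub_distrib, h2, sub_zero, Finset.mul_sum]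
      have h5 : ((∑ i, wt v i * (np (n + j i) : ℤ) : ℤ) : ℚ) = ((q * ∑ i, wt v i * z i : ℤ) : ℚ) := by
        push_cast
        exact_mod_cast h3
      exact_mod_cast h5
  · push Not at hN
    have h1 : (A.card : ℝ) ≤ N := by
      have := Finset.card_le_card hA
      rw [card_range] at this
      exact_mod_cast this
    have hNpos : 0 < N := by
      rcases Nat.eq_zero_or_pos N with h | h
      · rw [h] at hqN
        simp at hqN
        linarith
      · exact h
    have hNr : (1:ℝ) ≤ N := by exact_mod_cast hNpos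
    have hlogN : Real.log N ≤ N := by
      have := Real.log_le_sub_one_of_pos (show (0:ℝ) < N by linarith)
      linarith
    have h2 : (1:ℝ) ≤ N0 * Q ^ (-c) := by
      rw [Real.rpow_neg hq0.le, ← div_eq_mul_inv, le_div_iff₀ (Real.rpow_pos_of_pos hq0 _), one_mul]
      calc Q ^ c ≤ Q ^ (1:ℝ) := Real.rpow_le_rpow_of_exponent_le hq1 hc1
        _ = Q := Real.rpow_one _
        _ ≤ N := hqN.trans hlogN
        _ ≤ N0 := by exact_mod_cast hN.le
    calc (A.card : ℝ) ≤ N * 1 := by linarith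
      _ ≤ N * (N0 * Q ^ (-c)) := by gcongr
      _ ≤ (C + N0) * N * Q ^ (-c) := by
          have : (0:ℝ) ≤ C * N * Q ^ (-c) := by positivity
          linarith [add_mul C (N0:ℝ) N, add_mul (C * N) (N0 * N) (Q ^ (-c))]

end Pool.Agent.PnPoly.NC
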