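import Pool.Agent.PnPoly.NC.Average
import Pool.Agent.PnPoly.NC.NonConc
import Pool.Agent.PnPoly.Final

/-!
# Averaging over the constant term alone
-/

open Finset Filter

namespace Pool.Agent.PnPoly.NC

lemma eventually_eval_nonneg {Q : Polynomial ℚ} (hlc : 0 ≤ Q.leadingCoeff) :
    ∀ᶠ n : ℕ in atTop, 0 ≤ Q.eval (n : ℚ) := by
  have h := finite_neg hlc
  obtain ⟨b, hb⟩ := h.bddAbove
  rw [eventually_atTop]
  refine ⟨b + 1, fun n hn => ?_⟩
  by_contra hcon
  have := hb (show n ∈ {n : ℕ | Q.eval (n : ℚ) < 0} from not_le.mp hcon)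
  omega

lemma eventually_mono {Q : Polynomial ℚ} (hlc : 0 ≤ Q.leadingCoeff) :
    ∀ᶠ n : ℕ in atTop, Q.eval (n : ℚ) ≤ Q.eval ((n : ℚ) + 1) := by
  set D := Q.comp (Polynomial.X + Polynomial.C 1) - Q with hD
  have hDe : ∀ n : ℕ, D.eval (n : ℚ) = Q.eval ((n : ℚ) + 1) - Q.eval (n : ℚ) := by
    intro n
    rw [hD, Polynomial.eval_sub, Polynomial.eval_comp]
    simp
  by_cases h : 0 ≤ D.leadingCoeff
  · filter_upwards [eventually_eval_nonneg h] with n hn
    rw [hDe] at hn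
    linarith
  · push Not at h
    have h2 : 0 ≤ (-D).leadingCoeff := by rw [Polynomial.leadingCoeff_neg]; linarith
    have h3 := eventually_eval_nonneg h2
    by_cases hdeg : 0 < Q.degree
    · exfalso
      have h4 := (Polynomial.tendsto_atTop_of_leadingCoeff_nonneg Q hdeg hlc).comp
        (tendsto_natCast_atTop_atTop (R := ℚ))
      rw [eventually_atTop] at h3
      obtain ⟨n0, h3⟩ := h3
      have h5 : ∀ n, n0 ≤ n → Q.eval (n : ℚ) ≤ Q.eval (n0 : ℚ) := by
        intro n hn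
        induction n, hn using Nat.le_induction with
        | base => exact le_rfl
        | succ n hn ih =>
          have h6 := h3 n hn
          rw [Polynomial.eval_neg, hDe] at h6
          push_cast
          linarith
      have h7 := (h4.eventually_gt_atTop (Q.eval (n0 : ℚ))).and (eventually_ge_atTop n0)
      obtain ⟨n, hn1, hn2⟩ := h7.exists
      have := h5 n hn2
      simp only [Function.comp_apply] at hn1
      linarith
    · have h1 : Q = Polynomial.C (Q.coeff 0) := Polynomial.eq_C_of_degree_le_zero (not_lt.mp hdeg)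
      refine Eventually.of_forall fun n => ?_
      rw [h1, Polynomial.eval_C, Polynomial.eval_C]

lemma const_admissible {Q : Polynomial ℚ} (hQ : ∀ m : ℤ, ∃ k : ℤ, Q.eval (m : ℚ) = (k : ℚ))
    (hlc : 0 ≤ Q.leadingCoeff) {b : ℕ} (hb : 1 ≤ b) :
    Admissible (Q + Polynomial.C (b : ℚ)) := by
  constructor
  · intro m
    obtain ⟨k, hk⟩ := hQ m
    refine ⟨k + b, ?_⟩
    simp [hk]
  · have hbpos : (0:ℚ) < b := by exact_mod_cast hb
    by_cases hdeg : 0 < Q.degree
    · rw [Polynomial.leadingCoeff_add_of_degree_lt' ((Polynomial.degree_C_le).trans_lt hdeg)]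
      have : Q ≠ 0 := by
        rintro rfl
        simp at hdeg
      exact lt_of_le_of_ne hlc (Ne.symm (Polynomial.leadingCoeff_ne_zero.mpr this))
    · have h1 : Q = Polynomial.C (Q.coeff 0) := Polynomial.eq_C_of_degree_le_zero (not_lt.mp hdeg)
      have h2 : 0 ≤ Q.coeff 0 := by
        rw [h1, Polynomial.leadingCoeff_C] at hlc
        exact hlc
      rw [h1, ← Polynomial.C_add, Polynomial.leadingCoeff_C]
      linarith

/-- a polynomial bound -/
lemma eval_le_pow (Q : Polynomial ℚ) : ∃ M : ℝ, 0 ≤ M ∧ ∀ n : ℕ, 1 ≤ n →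
    ((Q.eval (n : ℚ) : ℚ) : ℝ) ≤ M * (n:ℝ) ^ Q.natDegree := by
  refine ⟨∑ i ∈ range (Q.natDegree + 1), |((Q.coeff i : ℚ) : ℝ)|,
    sum_nonneg fun _ _ => abs_nonneg _, fun n hn => ?_⟩
  have hn1 : (1:ℝ) ≤ n := by exact_mod_cast hn
  rw [Polynomial.eval_eq_sum_range]
  push_cast
  rw [sum_mul]
  refine sum_le_sum fun i hi => ?_
  rw [mem_range] at hi
  have h1 : (n:ℝ) ^ i ≤ (n:ℝ) ^ Q.natDegree := pow_le_pow_right₀ hn1 (by omega)
  have h2 : (0:ℝ) ≤ (n:ℝ) ^ i := by positivity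
  calc ((Q.coeff i : ℚ) : ℝ) * (n:ℝ) ^ i ≤ |((Q.coeff i : ℚ) : ℝ)| * (n:ℝ) ^ i :=
        mul_le_mul_of_nonneg_right (le_abs_self _) h2
    _ ≤ |((Q.coeff i : ℚ) : ℝ)| * (n:ℝ) ^ Q.natDegree := mul_le_mul_of_nonneg_left h1 (abs_nonneg _)

theorem const_average (Q : Polynomial ℚ) (hQ : ∀ m : ℤ, ∃ k : ℤ, Q.eval (m : ℚ) = (k : ℚ))
    (hlc : 0 ≤ Q.leadingCoeff) {C0 : ℝ} (hC0 : 0 < C0) :
    ∃ η : ℝ, 0 < η ∧ ∃ H0 : ℕ, ∀ H : ℕ, H0 ≤ H → ∀ N : ℕ, C0 * Real.log H ≤ N →
      ((Nat.nth Nat.Prime (N - 1) : ℕ) : ℚ) + 2 * Q.eval (N : ℚ) ≤ H →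
      η * H ≤ ({b : ℕ | 1 ≤ b ∧ b ≤ H ∧ Admissible (Q + Polynomial.C (b : ℚ)) ∧
        ManyPrimes (Q + Polynomial.C (b : ℚ)) N ⌈η * (N / Real.log H)⌉₊}.ncard : ℝ) := by
  classical
  obtain ⟨C, hC, hnc⟩ := nonconc Q.natDegree
  have hc : (0:ℝ) < 1 / (28 * ((Q.natDegree:ℝ) + 1) ^ 2) := by positivity
  obtain ⟨η, hη, H0, hsa⟩ := seq_average (Q.natDegree + 3) hC.le hc hC0
  choose qv hqv using hQ
  obtain ⟨M, hM0, hM⟩ := eval_le_pow Q
  -- eventual behaviour
  have ev1 := (eventually_eval_nonneg hlc).and (eventually_mono hlc)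
  rw [eventually_atTop] at ev1
  obtain ⟨n0, hn0⟩ := ev1
  set n1 := max n0 1 with hn1
  -- the sequence
  set r : ℕ → ℕ := fun n => (np n + 2 * (qv (n + 1 : ℕ)).toNat) with hr
  have hqnn : ∀ n, n0 ≤ n → 0 ≤ qv n := by
    intro n hn
    have h1 := (hn0 n hn).1
    have h2 := hqv n
    push_cast at h2
    rw [h2] at h1
    exact_mod_cast h1
  have hqmono : ∀ n, n0 ≤ n → qv n ≤ qv (n + 1 : ℕ) := by
    intro n hn
    have h1 := (hn0 n hn).2
    have h2 := hqv n
    have h3 := hqv (n + 1 : ℕ)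
    push_cast at h2 h3
    rw [h2, h3] at h1
    exact_mod_cast h1
  have hrmono : ∀ n m, n1 ≤ n → n < m → r n < r m := by
    intro n m hn hnm
    induction m, hnm using Nat.le_induction with
    | base =>
      have h1 := np_strictMono (show n < n + 1 by omega)
      have h2 := hqmono (n + 1) (by omega)
      simp only [hr]
      have h3 : (qv (n + 1 : ℕ)).toNat ≤ (qv (n + 1 + 1 : ℕ)).toNat := Int.toNat_le_toNat h2
      simp only [Nat.succ_eq_add_one]
      omega
    | succ m hm ih =>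
      have h1 := np_strictMono (show m < m + 1 by omega)
      have h2 := hqmono (m + 1) (by omega)
      simp only [hr] at ih ⊢
      have h3 : (qv (m + 1 : ℕ)).toNat ≤ (qv (m + 1 + 1 : ℕ)).toNat := Int.toNat_le_toNat h2
      omega
  have hrval : ∀ n, n1 ≤ n → ((r n : ℕ) : ℚ) = (np n : ℚ) + 2 * Q.eval ((n + 1 : ℕ) : ℚ) := by
    intro n hn
    have h1 := hqnn (n + 1) (by omega)
    have h2 := hqv (n + 1 : ℕ)
    have h3 : ((qv (n + 1 : ℕ)).toNat : ℤ) = qv (n + 1 : ℕ) := Int.toNat_of_nonneg h1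
    have h4 : (((qv (n + 1 : ℕ)).toNat : ℕ) : ℚ) = ((qv (n + 1 : ℕ) : ℤ) : ℚ) := by
      exact_mod_cast congrArg (fun z : ℤ => (z : ℚ)) h3
    simp only [hr]
    push_cast at h2 h4 ⊢
    rw [h4, ← h2]
  -- size
  have ev2 : ∀ᶠ N : ℕ in atTop, (9:ℝ) * (N * Real.log N) + 2 * (M * (N:ℝ) ^ Q.natDegree) ≤
      (N:ℝ) ^ (Q.natDegree + 3) := by
    filter_upwards [(tendsto_natCast_atTop_atTop (R := ℝ)).eventually_ge_atTop (9 + 2 * M),
      eventually_ge_atTop 1] with N h1 h2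
    have hN1 : (1:ℝ) ≤ N := by exact_mod_cast h2
    have h3 : Real.log N ≤ N := by
      have := Real.log_le_sub_one_of_pos (show (0:ℝ) < N by linarith); linarith
    have h4 : (N:ℝ) * Real.log N ≤ (N:ℝ) ^ (Q.natDegree + 2) := by
      calc (N:ℝ) * Real.log N ≤ N * N := by gcongr
        _ = (N:ℝ) ^ 2 := by ring
        _ ≤ _ := pow_le_pow_right₀ hN1 (by omega)
    have h5 : (N:ℝ) ^ Q.natDegree ≤ (N:ℝ) ^ (Q.natDegree + 2) := pow_le_pow_right₀ hN1 (by omega)
    calc (9:ℝ) * (N * Real.log N) + 2 * (M * (N:ℝ) ^ Q.natDegree) ≤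
        9 * (N:ℝ) ^ (Q.natDegree + 2) + 2 * (M * (N:ℝ) ^ (Q.natDegree + 2)) := by gcongr
      _ = (9 + 2 * M) * (N:ℝ) ^ (Q.natDegree + 2) := by ring
      _ ≤ N * (N:ℝ) ^ (Q.natDegree + 2) := by gcongr
      _ = _ := by ring
  have ev3 := (ev2.and np_le).and (eventually_ge_atTop (2 * n1 + 2))
  rw [eventually_atTop] at ev3
  obtain ⟨N2, hN2⟩ := ev3
  have ev4 : ∀ᶠ H : ℕ in atTop, (N2:ℝ) ≤ C0 * Real.log H :=
    (tendsto_log_nat.const_mul_atTop hC0).eventually_ge_atTop _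
  rw [eventually_atTop] at ev4
  obtain ⟨H1, hH1⟩ := ev4
  refine ⟨η, hη, max H0 H1, ?_⟩
  intro H hH N hN hNH
  have hN2' : N2 ≤ N := by
    have : (N2:ℝ) ≤ N := (hH1 H ((le_max_right _ _).trans hH)).trans hN
    exact_mod_cast this
  obtain ⟨⟨hsz, hnpN⟩, hNn1⟩ := hN2 N hN2'
  set I := (range N).filter (fun n => n1 ≤ n) with hI
  have hIcard : N ≤ 2 * I.card := by
    have h1 : I = Ico n1 N := by
      ext n; rw [hI, mem_filter, mem_range, mem_Ico]; omega
    rw [h1, Nat.card_Ico]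
    omega
  have hrN : ∀ n ∈ I, r n ≤ r (N - 1) := by
    intro n hn
    rw [hI, mem_filter, mem_range] at hn
    rcases Nat.lt_or_ge n (N - 1) with h | h
    · exact (hrmono n (N - 1) hn.2 h).le
    · have : n = N - 1 := by omega
      rw [this]
  have hrlast : ((r (N - 1) : ℕ) : ℚ) = ((Nat.nth Nat.Prime (N - 1) : ℕ) : ℚ) + 2 * Q.eval (N : ℚ) := by
    have h1 := hrval (N - 1) (by omega)
    have h2 : N - 1 + 1 = N := by omega
    rw [h2] at h1
    exact h1
  have hrH : r (N - 1) ≤ H := by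
    rw [← hrlast] at hNH
    exact_mod_cast hNH
  have hrsize : (r (N - 1) : ℝ) ≤ (N:ℝ) ^ (Q.natDegree + 3) := by
    refine le_trans ?_ hsz
    have h1 : ((r (N - 1) : ℕ) : ℝ) = ((np (N - 1) : ℕ) : ℝ) + 2 * ((Q.eval (N : ℚ) : ℚ) : ℝ) := by
      have := congrArg (fun z : ℚ => (z : ℝ)) hrlast
      push_cast at this
      exact this
    rw [h1]
    have h2 : (np (N - 1) : ℝ) ≤ np N := by exact_mod_cast np_strictMono.monotone (by omega)
    have h3 := hM N (by omega)
    linarith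
  have hmain := hsa H ((le_max_left _ _).trans hH) N hN r I (Finset.filter_subset _ _) hIcard
    ?_ ?_ ?_ ?_
  · refine hmain.trans ?_
    rw [← Set.ncard_coe_finset]
    have hfin : {b : ℕ | 1 ≤ b ∧ b ≤ H ∧ Admissible (Q + Polynomial.C (b : ℚ)) ∧
        ManyPrimes (Q + Polynomial.C (b : ℚ)) N ⌈η * (N / Real.log H)⌉₊}.Finite :=
      (Set.finite_le_nat H).subset fun b hb => hb.2.1
    have hle := Set.ncard_le_ncard (s := (((Icc 1 H).filter (fun b => η * (N / Real.log H) ≤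
      ((I.filter (fun n => (r n + 2 * b).Prime)).card : ℝ)) : Finset ℕ) : Set ℕ)) ?_ hfin
    · exact_mod_cast hle
    · intro b hb
      rw [mem_coe, mem_filter, mem_Icc] at hb
      obtain ⟨⟨hb1, hbH⟩, hbT⟩ := hb
      refine ⟨hb1, hbH, const_admissible (fun m => ⟨qv m, hqv m⟩) hlc hb1, ?_⟩
      refine manyPrimes_of (by positivity)
        (S := (I.filter (fun n => (r n + 2 * b).Prime)).image (fun n => n + 1)) ?_ ?_
      · rw [Finset.card_image_of_injective _ (fun a b h => by simpa using h)]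
        exact Nat.ceil_le.mpr hbT
      · intro m hm
        rw [mem_image] at hm
        obtain ⟨n, hn, rfl⟩ := hm
        rw [mem_filter, hI, mem_filter, mem_range] at hn
        obtain ⟨⟨hnN, hnn1⟩, hprime⟩ := hn
        refine ⟨by omega, by rw [Nat.floor_natCast]; omega, r n + 2 * b, hprime, ?_⟩
        rw [Nat.add_sub_cancel, Polynomial.eval_add, Polynomial.eval_C]
        have h1 := hrval n hnn1
        push_cast at h1 ⊢
        rw [h1]
        unfold np
        ring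
  · intro n hn
    have h1 := hrN n hn
    rw [hI, mem_filter, mem_range] at hn
    refine ⟨?_, h1.trans hrH⟩
    have h2 : np n % 2 = 1 := by
      rcases (np_prime n).eq_two_or_odd with h | h
      · exfalso
        have h3 := np_strictMono (show 0 < n by omega)
        have h4 : np 0 = 2 := Nat.nth_prime_zero_eq_two
        omega
      · exact h
    simp only [hr]
    omega
  · intro n hn m hm hnm
    rw [hI, mem_filter, mem_range] at hn hm
    rcases Nat.lt_or_gt_of_ne hnm with h | h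
    · exact (hrmono n m hn.2 h).ne
    · exact (hrmono m n hm.2 h).ne'
  · intro n hn
    refine le_trans ?_ hrsize
    exact_mod_cast hrN n hn
  · intro e he hel ρ
    set P : Polynomial ℚ := Polynomial.C 2 * Q.comp (Polynomial.X + Polynomial.C 1) -
      Polynomial.C (ρ : ℚ) with hP
    have hPdeg : P.natDegree ≤ Q.natDegree := by
      rw [hP, Polynomial.natDegree_sub_C]
      refine (Polynomial.natDegree_C_mul_le _ _).trans ?_
      rw [Polynomial.natDegree_comp, Polynomial.natDegree_X_add_C, mul_one]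
    refine hnc N e e he (by exact_mod_cast he) le_rfl hel P hPdeg _
      ((Finset.filter_subset _ _).trans (Finset.filter_subset _ _)) ?_
    intro n hn
    rw [mem_filter, hI, mem_filter] at hn
    obtain ⟨⟨hnN, hnn1⟩, z, hz⟩ := hn
    refine ⟨z, ?_⟩
    have h1 := hrval n hnn1
    have h2 : ((r n : ℤ) : ℚ) - ρ = e * z := by exact_mod_cast congrArg (fun z : ℤ => (z : ℚ)) hz
    rw [hP, Polynomial.eval_sub, Polynomial.eval_mul, Polynomial.eval_C, Polynomial.eval_C,
      Polynomial.eval_comp]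
    simp only [Polynomial.eval_add, Polynomial.eval_X, Polynomial.eval_C]
    push_cast at h1 h2 ⊢
    linarith

end Pool.Agent.PnPoly.NC
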