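import Pool.Agent.HL26.SieveA

/-!
# Mertens' upper bound for the Euler product
-/

open Finset Filter
open Pool.Agent.HL26

namespace Pool.Agent.PnPoly.NC

lemma PPy_succ (w : ℕ) : PPy (w + 1) = if (w + 1).Prime then insert (w + 1) (PPy w) else PPy w := by
  unfold PPy
  rw [Finset.range_add_one (n := w + 1), Finset.filter_insert]

lemma not_mem_PPy (w : ℕ) : w + 1 ∉ PPy w := by
  unfold PPy
  simp

lemma sum_inv_le (w : ℕ) (hw : 2 ≤ w) :
    ∑ p ∈ PPy w, 1 / (p:ℝ) ≤ Real.log (Real.log w) + 4 := by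
  have hlog2 : 0 < Real.log 2 := Real.log_pos (by norm_num)
  have key : ∑ p ∈ PPy w, 1 / (p:ℝ) ≤ (∑ p ∈ PPy w, Real.log p / p) / Real.log w +
      (Real.log (Real.log w) - Real.log (Real.log 2)) +
      Real.log 4 * (1 / Real.log 2 - 1 / Real.log w) := by
    induction w, hw using Nat.le_induction with
    | base =>
      have h : PPy 2 = {2} := by decide
      rw [h]
      simp only [sum_singleton, Nat.cast_ofNat, sub_self, add_zero, mul_zero]
      rw [div_div, mul_comm (2:ℝ), ← div_div, div_self hlog2.ne']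
    | succ w hw ih =>
      have hw2 : (2:ℝ) ≤ w := by exact_mod_cast hw
      have hl : 0 < Real.log w := Real.log_pos (by linarith)
      have hl1 : 0 < Real.log ((w + 1 : ℕ) : ℝ) := Real.log_pos (by push_cast; linarith)
      have hll : Real.log w ≤ Real.log ((w + 1 : ℕ) : ℝ) :=
        Real.log_le_log (by linarith) (by push_cast; linarith)
      set A := ∑ p ∈ PPy w, Real.log p / p with hA
      set l := Real.log w with hldef
      set l1 := Real.log ((w + 1 : ℕ) : ℝ) with hl1def
      have hAle : A ≤ l + Real.log 4 := sum_log_div_le w (by omega)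
      have hid : ∑ p ∈ PPy (w + 1), 1 / (p:ℝ) - (∑ p ∈ PPy (w + 1), Real.log p / p) / l1 =
          ∑ p ∈ PPy w, 1 / (p:ℝ) - A / l1 := by
        rw [PPy_succ]
        split_ifs with hp
        · rw [sum_insert (not_mem_PPy w), sum_insert (not_mem_PPy w), ← hl1def, ← hA]
          have hw1 : ((w + 1 : ℕ) : ℝ) ≠ 0 := by positivity
          field_simp
          ring
        · rfl
      have hinv : 1 / l1 ≤ 1 / l := one_div_le_one_div_of_le hl hll
      have h1 : A * (1 / l - 1 / l1) ≤ (l + Real.log 4) * (1 / l - 1 / l1) :=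
        mul_le_mul_of_nonneg_right hAle (by linarith)
      have h2 : l * (1 / l - 1 / l1) ≤ Real.log l1 - Real.log l := by
        have h3 : Real.log (l / l1) ≤ l / l1 - 1 := Real.log_le_sub_one_of_pos (by positivity)
        rw [Real.log_div hl.ne' hl1.ne'] at h3
        have h4 : l * (1 / l - 1 / l1) = 1 - l / l1 := by
          field_simp
        linarith
      have h5 : A * (1 / l - 1 / l1) = A / l - A / l1 := by ring
      have h6 : (l + Real.log 4) * (1 / l - 1 / l1) = l * (1 / l - 1 / l1) +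
        Real.log 4 * (1 / l - 1 / l1) := by ring
      have h7 : Real.log 4 * (1 / Real.log 2 - 1 / l1) = Real.log 4 * (1 / Real.log 2 - 1 / l) +
        Real.log 4 * (1 / l - 1 / l1) := by ring
      linarith
  refine key.trans ?_
  have hw2 : (2:ℝ) ≤ w := by exact_mod_cast hw
  have hl : 0 < Real.log w := Real.log_pos (by linarith)
  have hA := sum_log_div_le w (by omega)
  have h1 : (∑ p ∈ PPy w, Real.log p / p) / Real.log w ≤ 1 + Real.log 4 / Real.log w := by
    rw [div_le_iff₀ hl]
    have : (1 + Real.log 4 / Real.log w) * Real.log w = Real.log w + Real.log 4 := by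
      field_simp
    linarith
  have h4 : Real.log 4 = 2 * Real.log 2 := by
    rw [show (4:ℝ) = 2 ^ 2 by norm_num, Real.log_pow]; norm_num
  have h5 : Real.log 4 * (1 / Real.log 2 - 1 / Real.log w) = 2 - Real.log 4 / Real.log w := by
    rw [h4]; field_simp
  have h6 : -1 ≤ Real.log (Real.log 2) := by
    rw [Real.le_log_iff_exp_le hlog2]
    have h7 : Real.exp (-1) ≤ 1 / 2 := by
      rw [Real.exp_neg, inv_eq_one_div]
      apply one_div_le_one_div_of_le (by norm_num)
      have := Real.add_one_le_exp (1:ℝ)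
      linarith
    have := Real.log_two_gt_d9
    linarith
  linarith

lemma sum_inv_mul_le (w : ℕ) : ∑ p ∈ PPy w, 1 / ((p:ℝ) * (p - 1)) ≤ 1 := by
  have h : ∀ w : ℕ, ∑ p ∈ PPy (w + 1), 1 / ((p:ℝ) * (p - 1)) ≤ 1 - 1 / ((w:ℝ) + 1) := by
    intro w
    induction w with
    | zero =>
      have : PPy (0 + 1) = ∅ := by decide
      rw [this]; simp
    | succ w ih =>
      rw [PPy_succ]
      have h1 : 1 / (((w:ℝ) + 1 + 1) * ((w:ℝ) + 1)) = 1 / ((w:ℝ) + 1) - 1 / ((w:ℝ) + 1 + 1) := by
        field_simp; ring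
      have h2 : 0 ≤ 1 / (((w:ℝ) + 1 + 1) * ((w:ℝ) + 1)) := by positivity
      split_ifs with hp
      · rw [sum_insert (not_mem_PPy _)]
        push_cast
        rw [show (w:ℝ) + 1 + 1 - 1 = (w:ℝ) + 1 by ring, h1]
        push_cast at ih
        linarith
      · push_cast
        push_cast at ih
        linarith
  rcases Nat.eq_zero_or_pos w with rfl | hw
  · have : PPy 0 = ∅ := by decide
    rw [this]; simp
  · obtain ⟨v, rfl⟩ := Nat.exists_eq_add_of_le' hw
    refine (h v).trans ?_
    have : 0 ≤ 1 / ((v:ℝ) + 1) := by positivity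
    linarith

lemma fac_eq (p : ℕ) (hp : p.Prime) : (1 - 1 / (p:ℝ))⁻¹ = 1 + 1 / ((p:ℝ) - 1) := by
  have h2 : (2:ℝ) ≤ p := by exact_mod_cast hp.two_le
  have h1 : (p:ℝ) - 1 ≠ 0 := by linarith
  have h0 : (p:ℝ) ≠ 0 := by linarith
  field_simp
  ring

/-- Mertens' upper bound. -/
lemma prod_fac_le (w : ℕ) (hw : 2 ≤ w) :
    ∏ p ∈ PPy w, (1 - 1 / (p:ℝ))⁻¹ ≤ Real.exp 5 * Real.log w := by
  have hw2 : (2:ℝ) ≤ w := by exact_mod_cast hw
  have hl : 0 < Real.log w := Real.log_pos (by linarith)
  calc ∏ p ∈ PPy w, (1 - 1 / (p:ℝ))⁻¹ ≤ ∏ p ∈ PPy w, Real.exp (1 / (p:ℝ) + 1 / ((p:ℝ) * (p - 1))) := by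
        refine Finset.prod_le_prod (fun p hp => ?_) fun p hp => ?_
        · have hpp := PPy_prime w p hp
          exact (inv_pos.mpr (one_sub_inv_pos p hpp)).le
        · have hpp := PPy_prime w p hp
          have h2 : (2:ℝ) ≤ p := by exact_mod_cast hpp.two_le
          have h1 : (p:ℝ) - 1 ≠ 0 := by linarith
          have h0 : (p:ℝ) ≠ 0 := by linarith
          rw [fac_eq p hpp]
          have : 1 / (p:ℝ) + 1 / ((p:ℝ) * (p - 1)) = 1 / ((p:ℝ) - 1) := by
            field_simp; ring
          rw [this, add_comm]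
          exact Real.add_one_le_exp _
    _ = Real.exp (∑ p ∈ PPy w, 1 / (p:ℝ) + ∑ p ∈ PPy w, 1 / ((p:ℝ) * (p - 1))) := by
        rw [← Real.exp_sum, Finset.sum_add_distrib]
    _ ≤ Real.exp (5 + Real.log (Real.log w)) := by
        apply Real.exp_le_exp.mpr
        have h1 := sum_inv_le w hw
        have h2 := sum_inv_mul_le w
        linarith
    _ = _ := by rw [Real.exp_add, Real.exp_log hl]

end Pool.Agent.PnPoly.NC
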