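import Pool.Agent.PnPoly.NC.PairSum
import Pool.Agent.PnPoly.SWU

/-!
# Prime values of translates of a sequence with well distributed differences
-/

open Finset Filter
open Pool.Agent.HL26

namespace Pool.Agent.PnPoly.NC

/-- primes in `(H, 2H]` -/
lemma primes_dyadic : ∀ᶠ H : ℕ in atTop,
    (H:ℝ) / (4 * Real.log H) ≤ (((Ioc H (2 * H)).filter Nat.Prime).card : ℝ) := by
  filter_upwards [sw_uniform 1 2, tendsto_log_nat.eventually_ge_atTop 4, eventually_ge_atTop 4]
    with H h hl hH
  have hH0 : (4:ℝ) ≤ H := by exact_mod_cast hH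
  set l := Real.log H with hldef
  have hu : ∀ a : ZMod 1, IsUnit a := fun a => by
    rw [show a = 1 from Subsingleton.elim _ _]; exact isUnit_one
  have h1 := h H (by rw [pow_one]; nlinarith) 1 le_rfl (by rw [pow_one]; push_cast; linarith) 0 (hu 0)
  have h2 := h (2 * H) (by rw [pow_one]; push_cast; nlinarith) 1 le_rfl
    (by rw [pow_one]; push_cast; linarith) 0 (hu 0)
  rw [Nat.totient_one, Nat.cast_one, div_one] at h1 h2
  have h3 := (abs_le.mp h1).2
  have h4 := (abs_le.mp h2).1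
  push_cast at h4
  have h5 : (H:ℝ) / l ^ 2 ≤ H / 16 := by
    apply div_le_div_of_nonneg_left (by positivity) (by norm_num)
    nlinarith
  have h6 : th (2 * H) 1 0 - th H 1 0 ≤ (((Ioc H (2 * H)).filter Nat.Prime).card : ℝ) * (2 * l) := by
    have h7 : th (2 * H) 1 0 = th H 1 0 + ∑ p ∈ (Ioc H (2 * H)).filter Nat.Prime, Real.log p := by
      unfold th
      rw [← sum_union]
      · congr 1
        ext p
        simp only [mem_union, mem_filter, mem_Icc, mem_Ioc]
        have : ((p : ZMod 1) = 0) = True := by simp [Subsingleton.elim (p : ZMod 1) 0]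
        simp only [this, and_true]
        constructor
        · rintro ⟨h1, h2⟩
          by_cases h : p ≤ H
          · exact Or.inl ⟨⟨h1.1, h⟩, h2⟩
          · exact Or.inr ⟨⟨by omega, h1.2⟩, h2⟩
        · rintro (⟨h1, h2⟩ | ⟨h1, h2⟩)
          · exact ⟨⟨h1.1, by omega⟩, h2⟩
          · exact ⟨⟨by omega, h1.2⟩, h2⟩
      · rw [Finset.disjoint_left]
        intro p hp hp'
        rw [mem_filter, mem_Icc] at hp
        rw [mem_filter, mem_Ioc] at hp'
        omega
    rw [h7, add_sub_cancel_left]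
    calc ∑ p ∈ (Ioc H (2 * H)).filter Nat.Prime, Real.log p ≤
        ∑ p ∈ (Ioc H (2 * H)).filter Nat.Prime, 2 * l := by
          refine sum_le_sum fun p hp => ?_
          rw [mem_filter, mem_Ioc] at hp
          have h8 : (p:ℝ) ≤ 2 * H := by exact_mod_cast hp.1.2
          have h9 : (p:ℝ) ≤ H * H := by nlinarith
          have := Real.log_le_log (by exact_mod_cast hp.2.pos) h9
          rw [Real.log_mul (by positivity) (by positivity)] at this
          linarith
      _ = _ := by rw [sum_const, nsmul_eq_mul]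
  rw [div_le_iff₀ (by positivity)]
  nlinarith

lemma primes_upto : ∀ᶠ H : ℕ in atTop,
    ((((Icc 1 (3 * H)).filter Nat.Prime).card : ℕ) : ℝ) ≤ 9 * H / Real.log H := by
  have h1 := Chebyshev.eventually_primeCounting_le (ε := 1) one_pos
  have h2 := (tendsto_natCast_atTop_atTop (R := ℝ)).comp
    (tendsto_id.const_mul_atTop' (by norm_num : 0 < 3))
  have h3 := h2.eventually h1
  filter_upwards [h3, tendsto_log_nat.eventually_ge_atTop 4, eventually_ge_atTop 4] with H h hl hH
  simp only [Function.comp_apply, id] at h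
  rw [Nat.floor_natCast] at h
  have h4 : ((Icc 1 (3 * H)).filter Nat.Prime).card ≤ Nat.primeCounting (3 * H) := by
    rw [Nat.primeCounting, Nat.primeCounting', Nat.count_eq_card_filter_range]
    refine card_le_card fun p hp => ?_
    rw [mem_filter, mem_Icc] at hp
    rw [mem_filter, mem_range]
    exact ⟨by omega, hp.2⟩
  have h5 : ((((Icc 1 (3 * H)).filter Nat.Prime).card : ℕ) : ℝ) ≤ Nat.primeCounting (3 * H) := by
    exact_mod_cast h4
  refine h5.trans (h.trans ?_)
  push_cast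
  have hH0 : (4:ℝ) ≤ H := by exact_mod_cast hH
  have h6 : Real.log 4 ≤ 2 := by
    rw [show (4:ℝ) = 2 ^ 2 by norm_num, Real.log_pow]
    have := Real.log_two_lt_d9
    push_cast
    linarith
  have h7 : Real.log H ≤ Real.log (3 * H) := Real.log_le_log (by linarith) (by linarith)
  calc (Real.log 4 + 1) * (3 * H) / Real.log (3 * H) ≤ (9 * H) / Real.log (3 * H) := by
        apply div_le_div_of_nonneg_right _ (by linarith)
        nlinarith
    _ ≤ 9 * H / Real.log H := by
        apply div_le_div_of_nonneg_left (by positivity) (by linarith) h7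

lemma pair_bound : ∃ C : ℝ, 0 < C ∧ ∀ᶠ H : ℕ in atTop, ∀ a b : ℕ, a % 2 = 1 → b % 2 = 1 → a ≠ b →
    ((((Icc 1 H).filter (fun t => (a + 2 * t).Prime ∧ (b + 2 * t).Prime)).card : ℕ) : ℝ) ≤
      C * G0 (((a:ℤ) - b).natAbs) * (H / Real.log H ^ 2) := by
  obtain ⟨C, hC, hsv⟩ := exists_sieve_bound 2 (by omega)
  refine ⟨2 * C * Real.exp 8, by positivity, ?_⟩
  have h2 := (tendsto_natCast_atTop_atTop (R := ℝ)).comp
    (tendsto_id.const_mul_atTop' (by norm_num : 0 < 2))
  have h3 := h2.eventually hsv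
  filter_upwards [h3, tendsto_log_nat.eventually_ge_atTop 4, eventually_ge_atTop 4] with H h hl hH
  simp only [Function.comp_apply, id] at h
  -- reduce to a < b
  have key : ∀ a b : ℕ, a % 2 = 1 → b % 2 = 1 → a < b →
      ((((Icc 1 H).filter (fun t => (a + 2 * t).Prime ∧ (b + 2 * t).Prime)).card : ℕ) : ℝ) ≤
      2 * C * Real.exp 8 * G0 (b - a) * (H / Real.log H ^ 2) := by
    intro a b ha hb hab
    have hcard : ({a, b} : Finset ℕ).card = 2 := Finset.card_pair hab.ne
    have hadm : ∀ p : ℕ, p.Prime → nu {a, b} p < p := by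
      intro p hp
      rcases hp.eq_two_or_odd with rfl | hodd
      · have : nu {a, b} 2 = 1 := by
          unfold nu
          have e1 : ((a : ℕ) : ZMod 2) = 1 := by
            have := (ZMod.natCast_eq_natCast_iff' a 1 2).mpr (by omega)
            simpa using this
          have e2 : ((b : ℕ) : ZMod 2) = 1 := by
            have := (ZMod.natCast_eq_natCast_iff' b 1 2).mpr (by omega)
            simpa using this
          rw [image_insert, image_singleton, e1, e2]
          simp
        rw [this]; norm_num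
      · have h3 := nu_le_card {a, b} p
        have h4 := hp.two_le
        rw [hcard] at h3
        omega
    have hb1 := h {a, b} hcard hadm
    have hcnt : ((Icc 1 H).filter (fun t => (a + 2 * t).Prime ∧ (b + 2 * t).Prime)).card ≤
        tupleCount ((2 * H : ℕ) : ℝ) {a, b} := by
      unfold tupleCount
      rw [Nat.floor_natCast]
      refine Finset.card_le_card_of_injOn (fun t => 2 * t) ?_ ?_
      · intro t ht
        rw [mem_coe, mem_filter, mem_Icc] at ht
        rw [mem_coe, mem_filter, mem_Icc]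
        beta_reduce
        refine ⟨⟨by omega, by omega⟩, ?_⟩
        intro e he
        rw [mem_insert, mem_singleton] at he
        rcases he with rfl | rfl
        · rw [add_comm]; exact ht.2.1
        · rw [add_comm]; exact ht.2.2
      · intro t _ t' _ h
        simp only at h
        omega
    have hS : singularSeries {a, b} ≤ Real.exp 8 * G0 (b - a) := by
      have h5 := singularSeries_le_prod {a, b} (by simp)
      rw [hcard] at h5
      have h6 : prs {a, b} = {(a, b)} := by
        unfold prs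
        ext ⟨x, y⟩
        simp only [mem_filter, mem_product, mem_insert, mem_singleton, Prod.mk.injEq]
        constructor
        · rintro ⟨⟨h1 | h1, h2 | h2⟩, h3⟩ <;> subst h1 <;> subst h2 <;> omega
        · rintro ⟨rfl, rfl⟩
          exact ⟨⟨Or.inl rfl, Or.inr rfl⟩, hab⟩
      rw [h6, prod_singleton] at h5
      simp only [Nat.add_one_sub_one, pow_one] at h5
      norm_num at h5
      exact h5
    have hH0 : (4:ℝ) ≤ H := by exact_mod_cast hH
    have hl2 : Real.log H ≤ Real.log ((2 * H : ℕ) : ℝ) :=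
      Real.log_le_log (by linarith) (by push_cast; linarith)
    have hcnt' : ((((Icc 1 H).filter (fun t => (a + 2 * t).Prime ∧ (b + 2 * t).Prime)).card : ℕ) : ℝ) ≤
        tupleCount ((2 * H : ℕ) : ℝ) {a, b} := by exact_mod_cast hcnt
    refine hcnt'.trans (hb1.trans ?_)
    have hG : 0 ≤ G0 (b - a) := by have := one_le_G0 (b - a); linarith
    calc C * (singularSeries {a, b} * (((2 * H : ℕ) : ℝ) / Real.log ((2 * H : ℕ) : ℝ) ^ 2))
        ≤ C * ((Real.exp 8 * G0 (b - a)) * (((2 * H : ℕ) : ℝ) / Real.log H ^ 2)) := by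
          gcongr
      _ = _ := by push_cast; ring
  intro a b ha hb hab
  rcases Nat.lt_or_gt_of_ne hab with hlt | hlt
  · have h5 := key a b ha hb hlt
    have h6 : ((a:ℤ) - b).natAbs = b - a := by omega
    rw [h6]
    exact h5
  · have h5 := key b a hb ha hlt
    have h6 : ((a:ℤ) - b).natAbs = a - b := by omega
    rw [h6]
    have h7 : (Icc 1 H).filter (fun t => (a + 2 * t).Prime ∧ (b + 2 * t).Prime) =
        (Icc 1 H).filter (fun t => (b + 2 * t).Prime ∧ (a + 2 * t).Prime) := by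
      ext t; simp only [mem_filter]; tauto
    rw [h7]
    exact h5

/-- Prime values of the translates `r n + 2 b` for a positive proportion of `b`. -/
theorem seq_average {C c C0 : ℝ} (K : ℕ) (hC : 0 ≤ C) (hc : 0 < c) (hC0 : 0 < C0) :
    ∃ η : ℝ, 0 < η ∧ ∃ H0 : ℕ, ∀ H : ℕ, H0 ≤ H → ∀ N : ℕ, C0 * Real.log H ≤ N →
    ∀ r : ℕ → ℕ, ∀ I ⊆ range N, N ≤ 2 * I.card → (∀ n ∈ I, r n % 2 = 1 ∧ r n ≤ H) →
    (∀ n ∈ I, ∀ m ∈ I, n ≠ m → r n ≠ r m) → (∀ n ∈ I, (r n : ℝ) ≤ (N:ℝ) ^ K) →
    (∀ e : ℕ, 1 ≤ e → (e:ℝ) ≤ Real.log N → ∀ ρ : ℤ,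
      ((I.filter (fun m => (e:ℤ) ∣ (r m : ℤ) - ρ)).card : ℝ) ≤ C * N * (e:ℝ) ^ (-c)) →
    η * H ≤ (((Icc 1 H).filter (fun b => η * (N / Real.log H) ≤
      ((I.filter (fun n => (r n + 2 * b).Prime)).card : ℝ))).card : ℝ) := by
  classical
  obtain ⟨C3, hC3, hps⟩ := pair_sum K hC hc
  obtain ⟨C2, hC2, hpb⟩ := pair_bound
  rw [eventually_atTop] at hps
  obtain ⟨N1, hps⟩ := hps
  set C4 : ℝ := 9 / C0 + C2 * C3 with hC4
  have hC4p : 0 < C4 := by positivity
  refine ⟨min (1 / (256 * C4)) (1 / 16), by positivity, ?_⟩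
  have e1 : ∀ᶠ H : ℕ in atTop, (N1:ℝ) ≤ C0 * Real.log H :=
    (tendsto_log_nat.const_mul_atTop hC0).eventually_ge_atTop _
  rw [← eventually_atTop]
  filter_upwards [primes_dyadic, primes_upto, hpb, e1, tendsto_log_nat.eventually_ge_atTop 4,
    eventually_ge_atTop 4] with H hdy hup hpb hN1 hl hH
  intro N hN r I hI hIc hodd hinj hsize hcount
  set l := Real.log H with hldef
  set η : ℝ := min (1 / (256 * C4)) (1 / 16) with hη
  have hη1 : η ≤ 1 / (256 * C4) := min_le_left _ _
  have hη2 : η ≤ 1 / 16 := min_le_right _ _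
  have hη0 : 0 < η := by positivity
  have hH0 : (4:ℝ) ≤ H := by exact_mod_cast hH
  have hN1' : N1 ≤ N := by
    have : (N1:ℝ) ≤ N := hN1.trans hN
    exact_mod_cast this
  have hNpos : (0:ℝ) < N := lt_of_lt_of_le (by positivity) hN
  have hIc' : (N:ℝ) ≤ 2 * I.card := by exact_mod_cast hIc
  have hIle : (I.card : ℝ) ≤ N := by
    have := Finset.card_le_card hI
    rw [card_range] at this
    exact_mod_cast this
  set T : ℕ → ℕ := fun b => (I.filter (fun n => (r n + 2 * b).Prime)).card with hT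
  -- single counts
  have hlow : ∀ n ∈ I, (H:ℝ) / (4 * l) ≤
      (((Icc 1 H).filter (fun b => (r n + 2 * b).Prime)).card : ℝ) := by
    intro n hn
    refine hdy.trans ?_
    have : ((Ioc H (2 * H)).filter Nat.Prime).card ≤
        ((Icc 1 H).filter (fun b => (r n + 2 * b).Prime)).card := by
      refine Finset.card_le_card_of_injOn (fun p => (p - r n) / 2) ?_ ?_
      · intro p hp
        rw [mem_coe, mem_filter, mem_Ioc] at hp
        obtain ⟨h1, h2⟩ := hodd n hn
        have h3 : p % 2 = 1 := by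
          rcases hp.2.eq_two_or_odd with h | h
          · omega
          · exact h
        rw [mem_coe, mem_filter, mem_Icc]
        beta_reduce
        refine ⟨⟨by omega, by omega⟩, ?_⟩
        have h4 : r n + 2 * ((p - r n) / 2) = p := by omega
        rw [h4]
        exact hp.2
      · intro p hp p' hp' h
        rw [mem_coe, mem_filter, mem_Ioc] at hp hp'
        obtain ⟨h1, h2⟩ := hodd n hn
        have h3 : p % 2 = 1 := by
          rcases hp.2.eq_two_or_odd with h | h
          · omega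
          · exact h
        have h3' : p' % 2 = 1 := by
          rcases hp'.2.eq_two_or_odd with h | h
          · omega
          · exact h
        beta_reduce at h
        omega
    exact_mod_cast this
  have hupp : ∀ n ∈ I, (((Icc 1 H).filter (fun b => (r n + 2 * b).Prime)).card : ℝ) ≤
      9 * H / l := by
    intro n hn
    refine le_trans ?_ hup
    have : ((Icc 1 H).filter (fun b => (r n + 2 * b).Prime)).card ≤
        ((Icc 1 (3 * H)).filter Nat.Prime).card := by
      refine Finset.card_le_card_of_injOn (fun b => r n + 2 * b) ?_ ?_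
      · intro b hb
        rw [mem_coe, mem_filter, mem_Icc] at hb
        obtain ⟨h1, h2⟩ := hodd n hn
        rw [mem_coe, mem_filter, mem_Icc]
        beta_reduce
        exact ⟨⟨by omega, by omega⟩, hb.2⟩
      · intro b _ b' _ h
        beta_reduce at h
        omega
    exact_mod_cast this
  -- first moment
  have hS1 : ∑ b ∈ Icc 1 H, (T b : ℝ) = ∑ n ∈ I, (((Icc 1 H).filter (fun b => (r n + 2 * b).Prime)).card : ℝ) := by
    simp only [hT, Finset.card_filter]
    push_cast
    rw [Finset.sum_comm]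
  have hS1' : (I.card : ℝ) * (H / (4 * l)) ≤ ∑ b ∈ Icc 1 H, (T b : ℝ) := by
    rw [hS1, ← nsmul_eq_mul, ← Finset.sum_const]
    exact Finset.sum_le_sum hlow
  -- second moment
  have hS2 : ∑ b ∈ Icc 1 H, (T b : ℝ) ^ 2 = ∑ p ∈ I ×ˢ I,
      (((Icc 1 H).filter (fun b => (r p.1 + 2 * b).Prime ∧ (r p.2 + 2 * b).Prime)).card : ℝ) := by
    have h1 : ∀ b, (T b : ℝ) ^ 2 = ∑ p ∈ I ×ˢ I,
        (if (r p.1 + 2 * b).Prime ∧ (r p.2 + 2 * b).Prime then (1:ℝ) else 0) := by
      intro b
      simp only [hT, Finset.card_filter]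
      push_cast
      rw [sq, Finset.sum_mul_sum, Finset.sum_product]
      refine Finset.sum_congr rfl fun n _ => Finset.sum_congr rfl fun m _ => ?_
      by_cases h2 : (r n + 2 * b).Prime <;> by_cases h3 : (r m + 2 * b).Prime <;> simp [h2, h3]
    simp only [h1, Finset.card_filter]
    push_cast
    rw [Finset.sum_comm]
  have hS2' : ∑ b ∈ Icc 1 H, (T b : ℝ) ^ 2 ≤ C4 * ((N:ℝ) ^ 2 * (H / l ^ 2)) := by
    rw [hS2, ← Finset.sum_filter_add_sum_filter_not (I ×ˢ I) (fun p => p.1 ≠ p.2)]
    have hoff : ∑ p ∈ (I ×ˢ I).filter (fun p => p.1 ≠ p.2),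
        (((Icc 1 H).filter (fun b => (r p.1 + 2 * b).Prime ∧ (r p.2 + 2 * b).Prime)).card : ℝ) ≤
        C2 * C3 * ((N:ℝ) ^ 2 * (H / l ^ 2)) := by
      have h1 := hps N hN1' (fun n => (r n : ℤ)) I hI ?_ hcount
      · calc ∑ p ∈ (I ×ˢ I).filter (fun p => p.1 ≠ p.2),
            (((Icc 1 H).filter (fun b => (r p.1 + 2 * b).Prime ∧ (r p.2 + 2 * b).Prime)).card : ℝ) ≤
            ∑ p ∈ (I ×ˢ I).filter (fun p => p.1 ≠ p.2),
              C2 * G0 (((r p.1 : ℤ) - r p.2).natAbs) * (H / l ^ 2) := by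
              refine Finset.sum_le_sum fun p hp => ?_
              rw [mem_filter, mem_product] at hp
              exact hpb _ _ (hodd _ hp.1.1).1 (hodd _ hp.1.2).1 (hinj _ hp.1.1 _ hp.1.2 hp.2)
          _ = C2 * (∑ p ∈ (I ×ˢ I).filter (fun p => p.1 ≠ p.2),
              G0 (((r p.1 : ℤ) - r p.2).natAbs)) * (H / l ^ 2) := by
              rw [Finset.mul_sum, Finset.sum_mul]
          _ ≤ C2 * (C3 * (N:ℝ) ^ 2) * (H / l ^ 2) := by gcongr
          _ = _ := by ring
      · intro n hn m hm hnm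
        refine ⟨by exact_mod_cast hinj n hn m hm hnm, ?_⟩
        have h2 : (((r n : ℤ) - r m).natAbs : ℝ) ≤ max (r n : ℝ) (r m : ℝ) := by
          have : ((r n : ℤ) - r m).natAbs ≤ max (r n) (r m) := by omega
          have h3 : ((((r n : ℤ) - r m).natAbs : ℕ) : ℝ) ≤ ((max (r n) (r m) : ℕ) : ℝ) := by
            exact_mod_cast this
          rwa [Nat.cast_max] at h3
        exact h2.trans (max_le (hsize n hn) (hsize m hm))
    have hdiag : ∑ p ∈ (I ×ˢ I).filter (fun p => ¬ p.1 ≠ p.2),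
        (((Icc 1 H).filter (fun b => (r p.1 + 2 * b).Prime ∧ (r p.2 + 2 * b).Prime)).card : ℝ) ≤
        9 / C0 * ((N:ℝ) ^ 2 * (H / l ^ 2)) := by
      have h1 : ∑ p ∈ (I ×ˢ I).filter (fun p => ¬ p.1 ≠ p.2),
          (((Icc 1 H).filter (fun b => (r p.1 + 2 * b).Prime ∧ (r p.2 + 2 * b).Prime)).card : ℝ) ≤
          ∑ n ∈ I, 9 * H / l := by
        have h2 : (I ×ˢ I).filter (fun p => ¬ p.1 ≠ p.2) = I.image (fun n => (n, n)) := by
          ext ⟨n, m⟩
          simp only [mem_filter, mem_product, mem_image, Prod.mk.injEq, ne_eq, not_not]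
          constructor
          · rintro ⟨⟨h3, h4⟩, rfl⟩; exact ⟨n, h3, rfl, rfl⟩
          · rintro ⟨a, ha, rfl, rfl⟩; exact ⟨⟨ha, ha⟩, rfl⟩
        rw [h2, Finset.sum_image (fun a _ b _ h => (Prod.mk.inj h).1)]
        refine Finset.sum_le_sum fun n hn => ?_
        simp only [and_self]
        exact hupp n hn
      refine h1.trans ?_
      rw [Finset.sum_const, nsmul_eq_mul]
      have h3 : (1:ℝ) ≤ N / (C0 * l) := by rw [le_div_iff₀ (by positivity)]; linarith
      calc (I.card : ℝ) * (9 * H / l) ≤ N * (9 * H / l) := by gcongr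
        _ = N * (9 * H / l) * 1 := by ring
        _ ≤ N * (9 * H / l) * (N / (C0 * l)) := by gcongr
        _ = _ := by field_simp
    have : C4 * ((N:ℝ) ^ 2 * (H / l ^ 2)) = C2 * C3 * ((N:ℝ) ^ 2 * (H / l ^ 2)) +
        9 / C0 * ((N:ℝ) ^ 2 * (H / l ^ 2)) := by rw [hC4]; ring
    linarith
  -- Paley-Zygmund
  set A := (Icc 1 H).filter (fun b => η * (N / l) ≤ (T b : ℝ)) with hA
  change η * H ≤ (A.card : ℝ)
  have hL : (N:ℝ) * H / (8 * l) ≤ ∑ b ∈ Icc 1 H, (T b : ℝ) := by
    refine le_trans ?_ hS1'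
    calc (N:ℝ) * H / (8 * l) ≤ (2 * I.card) * H / (8 * l) := by gcongr
      _ = _ := by ring
  have hsmall : ∑ b ∈ (Icc 1 H).filter (fun b => ¬ η * (N / l) ≤ (T b : ℝ)), (T b : ℝ) ≤
      N * H / (16 * l) := by
    calc ∑ b ∈ (Icc 1 H).filter (fun b => ¬ η * (N / l) ≤ (T b : ℝ)), (T b : ℝ) ≤
        ∑ b ∈ (Icc 1 H).filter (fun b => ¬ η * (N / l) ≤ (T b : ℝ)), η * (N / l) := by
          refine Finset.sum_le_sum fun b hb => ?_
          rw [mem_filter] at hb
          exact (not_le.mp hb.2).le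
      _ ≤ ∑ b ∈ Icc 1 H, η * (N / l) :=
          Finset.sum_le_sum_of_subset_of_nonneg (Finset.filter_subset _ _) fun _ _ _ => by positivity
      _ = H * (η * (N / l)) := by rw [Finset.sum_const, Nat.card_Icc, nsmul_eq_mul]; simp
      _ ≤ H * (1 / 16 * (N / l)) := by gcongr
      _ = _ := by ring
  have hbig : (N:ℝ) * H / (16 * l) ≤ ∑ b ∈ A, (T b : ℝ) := by
    have h1 := Finset.sum_filter_add_sum_filter_not (Icc 1 H) (fun b => η * (N / l) ≤ (T b : ℝ))
      (fun b => (T b : ℝ))
    rw [← hA] at h1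
    have h2 : (N:ℝ) * H / (8 * l) = 2 * (N * H / (16 * l)) := by ring
    linarith
  have hcs := sq_sum_le_card_mul_sum_sq (s := A) (f := fun b => (T b : ℝ))
  have hA2 : ∑ b ∈ A, (T b : ℝ) ^ 2 ≤ C4 * ((N:ℝ) ^ 2 * (H / l ^ 2)) := by
    refine le_trans ?_ hS2'
    exact Finset.sum_le_sum_of_subset_of_nonneg (Finset.filter_subset _ _) fun _ _ _ => sq_nonneg _
  have h3 : ((N:ℝ) * H / (16 * l)) ^ 2 ≤ (A.card : ℝ) * (C4 * ((N:ℝ) ^ 2 * (H / l ^ 2))) := by
    calc ((N:ℝ) * H / (16 * l)) ^ 2 ≤ (∑ b ∈ A, (T b : ℝ)) ^ 2 := pow_le_pow_left₀ (by positivity) hbig 2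
      _ ≤ _ := hcs
      _ ≤ _ := mul_le_mul_of_nonneg_left hA2 (by positivity)
  have h4 : (1 / (256 * C4)) * H * (C4 * ((N:ℝ) ^ 2 * (H / l ^ 2))) = ((N:ℝ) * H / (16 * l)) ^ 2 := by
    field_simp
    norm_num
  rw [← h4] at h3
  have h5 : (1 / (256 * C4)) * H ≤ (A.card : ℝ) := le_of_mul_le_mul_right h3 (by positivity)
  calc η * H ≤ (1 / (256 * C4)) * H := by gcongr
    _ ≤ _ := h5

end Pool.Agent.PnPoly.NC
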