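import Pool.Agent.PnPoly.NC.Tuple

/-!
# The sieve bound for windows whose gaps satisfy a linear congruence
-/

open Finset Filter
open Pool.Agent.HL26

namespace Pool.Agent.PnPoly.NC

theorem window_bound (k : ℕ) (hk : 1 ≤ k) : ∃ C : ℝ, 0 < C ∧ ∀ᶠ x : ℝ in atTop,
    ∀ L q : ℕ, ∀ q1 : ℝ, k + 1 ≤ L → 1 ≤ q → 0 < q1 → q1 ≤ q → q1 ≤ L →
    ∀ l : Fin (k + 1) → ℤ, ∑ i, l i = 0 → l 0 ≠ 0 →
    ∀ j : Fin (k + 1) → ℕ, StrictMono j → ∀ S : Finset ℕ,
    (∀ n ∈ S, L < np (n + j 0)) → (∀ n ∈ S, (np (n + j (Fin.last k)) : ℝ) ≤ x) →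
    (∀ n ∈ S, np (n + j (Fin.last k)) ≤ np (n + j 0) + L) →
    (∀ n ∈ S, (q : ℤ) ∣ ∑ i, l i * (np (n + j i) : ℤ)) →
    (S.card : ℝ) ≤ C * Real.sqrt (|(l 0 : ℝ)| / q1) * ((2 * L + 1) / Real.log x) ^ k *
      (x / Real.log x) := by
  obtain ⟨C1, hC1, hsv⟩ := exists_sieve_bound (k + 1) (by omega)
  obtain ⟨C2, hC2, hsq⟩ := sum_singularSeries_sq_le (k + 1) (by omega)
  refine ⟨2 * C1 * Real.sqrt (2 * C2), by positivity, ?_⟩
  filter_upwards [hsv, eventually_ge_atTop 3] with x hx hx3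
  intro L q q1 hkL hq hq1 hq1q hq1L l hl hl0 j hj S h1 h2 h3 h4
  have hlog : 0 < Real.log x := Real.log_pos (by linarith)
  have hx0 : 0 < x := by linarith
  have hw := window_count hl hkL hj h1 h2 h3 h4
  have hw' : ((L:ℝ) + 1) * S.card ≤ ∑ E ∈ goods k L q l, (tupleCount x E : ℝ) := by exact_mod_cast hw
  set X : ℝ := 2 * L + 1 with hX
  have hX0 : 0 < X := by positivity
  have hsum : ∑ E ∈ goods k L q l, (tupleCount x E : ℝ) ≤
      C1 * (x / Real.log x ^ (k + 1)) * ∑ E ∈ goods k L q l, singularSeries E := by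
    rw [Finset.mul_sum]
    refine Finset.sum_le_sum fun E hE => ?_
    obtain ⟨hc, hadm⟩ := mem_goods hE
    refine (hx E hc hadm).trans (le_of_eq ?_)
    ring
  have hq0 : (0:ℝ) < q := by exact_mod_cast hq
  have hl1 : (1:ℝ) ≤ |(l 0 : ℝ)| := by
    have : (1:ℤ) ≤ |l 0| := Int.one_le_abs hl0
    exact_mod_cast this
  have hqX : q1 ≤ X * |(l 0:ℝ)| := by
    have h6 : q1 ≤ X := by
      rw [hX]
      have : (0:ℝ) ≤ L := by positivity
      linarith
    nlinarith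
  have hcard : ((goods k L q l).card : ℝ) ≤ X ^ k * (2 * (X * |(l 0:ℝ)| / q1)) := by
    have h5 : ((goods k L q l).card : ℝ) ≤ ((sols (2 * L + 1) q l).card : ℝ) := by
      exact_mod_cast card_goods_le k L q l
    have h6 := card_sols_le (2 * L + 1) q hq l hl0
    push_cast at h6
    rw [← hX] at h6
    have h7 : 1 ≤ X * |(l 0:ℝ)| / q1 := by rw [le_div_iff₀ hq1]; linarith
    have h8 : X * |(l 0:ℝ)| / q ≤ X * |(l 0:ℝ)| / q1 :=
      div_le_div_of_nonneg_left (by positivity) hq1 hq1q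
    refine h5.trans (h6.trans ?_)
    apply mul_le_mul_of_nonneg_left _ (by positivity)
    linarith
  have hsq' : ∑ E ∈ goods k L q l, (singularSeries E) ^ 2 ≤ C2 * X ^ (k + 1) := by
    have h5 := hsq (2 * L)
    push_cast at h5
    rw [← hX] at h5
    refine le_trans ?_ h5
    exact Finset.sum_le_sum_of_subset_of_nonneg (goods_subset k L q l) fun E _ _ => sq_nonneg _
  have hcs := sq_sum_le_card_mul_sum_sq (s := goods k L q l) (f := fun E => singularSeries E)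
  have hS2 : (∑ E ∈ goods k L q l, singularSeries E) ^ 2 ≤
      (Real.sqrt (2 * C2) * Real.sqrt (|(l 0 : ℝ)| / q1) * X ^ (k + 1)) ^ 2 := by
    refine hcs.trans ?_
    rw [mul_pow, mul_pow, Real.sq_sqrt (by positivity), Real.sq_sqrt (by positivity)]
    calc ((goods k L q l).card : ℝ) * ∑ E ∈ goods k L q l, (singularSeries E) ^ 2
        ≤ (X ^ k * (2 * (X * |(l 0:ℝ)| / q1))) * (C2 * X ^ (k + 1)) := by
          apply mul_le_mul hcard hsq' (Finset.sum_nonneg fun _ _ => sq_nonneg _) (by positivity)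
      _ = _ := by ring
  have hS : ∑ E ∈ goods k L q l, singularSeries E ≤
      Real.sqrt (2 * C2) * Real.sqrt (|(l 0 : ℝ)| / q1) * X ^ (k + 1) :=
    le_of_sq_le_sq hS2 (by positivity)
  have hmain : ((L:ℝ) + 1) * S.card ≤ C1 * (x / Real.log x ^ (k + 1)) *
      (Real.sqrt (2 * C2) * Real.sqrt (|(l 0 : ℝ)| / q1) * X ^ (k + 1)) := by
    refine hw'.trans (hsum.trans ?_)
    exact mul_le_mul_of_nonneg_left hS (by positivity)
  have hL1 : (0:ℝ) < (L:ℝ) + 1 := by positivity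
  have hXL : X ≤ 2 * ((L:ℝ) + 1) := by rw [hX]; linarith
  have hfin : ((L:ℝ) + 1) * S.card ≤ ((L:ℝ) + 1) * (2 * C1 * Real.sqrt (2 * C2) *
      Real.sqrt (|(l 0 : ℝ)| / q1) * (X / Real.log x) ^ k * (x / Real.log x)) := by
    refine hmain.trans ?_
    have e1 : C1 * (x / Real.log x ^ (k + 1)) *
      (Real.sqrt (2 * C2) * Real.sqrt (|(l 0 : ℝ)| / q1) * X ^ (k + 1)) =
      X * (C1 * Real.sqrt (2 * C2) *
      Real.sqrt (|(l 0 : ℝ)| / q1) * (X / Real.log x) ^ k * (x / Real.log x)) := by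
      rw [div_pow]
      field_simp
      ring
    have e2 : ((L:ℝ) + 1) * (2 * C1 * Real.sqrt (2 * C2) *
      Real.sqrt (|(l 0 : ℝ)| / q1) * (X / Real.log x) ^ k * (x / Real.log x)) =
      (2 * ((L:ℝ) + 1)) * (C1 * Real.sqrt (2 * C2) *
      Real.sqrt (|(l 0 : ℝ)| / q1) * (X / Real.log x) ^ k * (x / Real.log x)) := by ring
    rw [e1, e2]
    exact mul_le_mul_of_nonneg_right hXL (by positivity)
  exact le_of_mul_le_mul_left hfin hL1

end Pool.Agent.PnPoly.NC
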