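import Mathlib

/-!
# Counting solutions of a linear congruence in a box
-/

open Finset

namespace Pool.Agent.PnPoly.NC

lemma card_cong_le (X q : ℕ) (hq : 1 ≤ q) (a c : ℤ) (ha : a ≠ 0) :
    (((range X).filter (fun v : ℕ => (q : ℤ) ∣ a * v + c)).card : ℝ) ≤ X * |(a:ℝ)| / q + 1 := by
  set S := (range X).filter (fun v : ℕ => (q : ℤ) ∣ a * v + c) with hS
  set A := a.natAbs with hA
  have hA0 : 0 < A := Int.natAbs_pos.mpr ha
  have hinj : Set.InjOn (fun v : ℕ => v * A / q) (S : Set ℕ) := by
    have key : ∀ v ∈ S, ∀ v' ∈ S, v < v' → v * A / q < v' * A / q := by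
      intro v hv v' hv' hlt
      rw [hS, mem_filter] at hv hv'
      have h1 : (q : ℤ) ∣ a * ((v' : ℤ) - v) := by
        have := dvd_sub hv'.2 hv.2
        have e : a * (v' : ℤ) + c - (a * v + c) = a * ((v' : ℤ) - v) := by ring
        rwa [e] at this
      have h2 : (q : ℤ) ≤ |a| * ((v' : ℤ) - v) := by
        have hpos : 0 < |a| * ((v' : ℤ) - v) := mul_pos (abs_pos.mpr ha) (by omega)
        refine Int.le_of_dvd hpos ?_
        have h3 : |a| * ((v' : ℤ) - v) = |a * ((v' : ℤ) - v)| := by
          rw [abs_mul, abs_of_pos (show (0:ℤ) < (v' : ℤ) - v by omega)]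
        rw [h3]
        exact (dvd_abs _ _).mpr h1
      have h4 : v * A + q ≤ v' * A := by
        have h5 : (q : ℤ) ≤ (A : ℤ) * ((v' : ℤ) - v) := by
          rw [hA, Int.natCast_natAbs]; exact h2
        have h6 : ((v * A + q : ℕ) : ℤ) ≤ ((v' * A : ℕ) : ℤ) := by
          push_cast
          linarith [mul_sub (A:ℤ) (v':ℤ) (v:ℤ), mul_comm (A:ℤ) (v':ℤ), mul_comm (A:ℤ) (v:ℤ)]
        exact_mod_cast h6
      calc v * A / q < v * A / q + 1 := Nat.lt_succ_self _
        _ = (v * A + q) / q := by rw [Nat.add_div_right _ (by omega)]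
        _ ≤ v' * A / q := Nat.div_le_div_right h4
    intro v hv v' hv' h
    rcases lt_trichotomy v v' with h1 | h1 | h1
    · exact absurd h (key v hv v' hv' h1).ne
    · exact h1
    · exact absurd h (key v' hv' v hv h1).ne'
  have h1 : S.card ≤ (range (X * A / q + 1)).card := by
    refine Finset.card_le_card_of_injOn (fun v : ℕ => v * A / q) ?_ hinj
    intro v hv
    have hv1 : v ∈ S := hv
    rw [hS, mem_filter, mem_range] at hv1
    rw [mem_coe, mem_range]
    refine Nat.lt_succ_of_le (Nat.div_le_div_right ?_)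
    exact Nat.mul_le_mul_right _ hv1.1.le
  rw [card_range] at h1
  have h2 : ((X * A / q : ℕ) : ℝ) ≤ X * |(a:ℝ)| / q := by
    refine (Nat.cast_div_le).trans ?_
    push_cast
    rw [hA, Nat.cast_natAbs, Int.cast_abs]
  calc (S.card : ℝ) ≤ ((X * A / q + 1 : ℕ) : ℝ) := by exact_mod_cast h1
    _ ≤ _ := by push_cast; linarith

/-- The solutions of a linear congruence in a box. -/
noncomputable def sols {k : ℕ} (X q : ℕ) (l : Fin (k + 1) → ℤ) : Finset (Fin (k + 1) → ℕ) :=
  (Fintype.piFinset (fun _ => range X)).filter (fun e => (q : ℤ) ∣ ∑ i, l i * e i)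

lemma card_sols_le {k : ℕ} (X q : ℕ) (hq : 1 ≤ q) (l : Fin (k + 1) → ℤ) (hl : l 0 ≠ 0) :
    ((sols X q l).card : ℝ) ≤ (X:ℝ) ^ k * (X * |(l 0:ℝ)| / q + 1) := by
  classical
  have h1 : ((sols X q l).card : ℝ) = ∑ b ∈ Fintype.piFinset (fun _ : Fin k => range X),
      (((sols X q l).filter (fun e => Fin.tail e = b)).card : ℝ) := by
    rw [Finset.card_eq_sum_card_fiberwise (f := fun e => Fin.tail e)
      (t := Fintype.piFinset (fun _ : Fin k => range X))]
    · push_cast; rfl
    · intro e he
      have he1 : e ∈ sols X q l := he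
      unfold sols at he1
      rw [mem_filter, Fintype.mem_piFinset] at he1
      rw [mem_coe, Fintype.mem_piFinset]
      intro i
      exact he1.1 i.succ
  rw [h1]
  have h2 : ∀ b ∈ Fintype.piFinset (fun _ : Fin k => range X),
      (((sols X q l).filter (fun e => Fin.tail e = b)).card : ℝ) ≤ X * |(l 0:ℝ)| / q + 1 := by
    intro b _
    refine le_trans ?_ (card_cong_le X q hq (l 0) (∑ i : Fin k, l i.succ * b i) hl)
    have : ((sols X q l).filter (fun e => Fin.tail e = b)).card ≤
        ((range X).filter (fun v : ℕ => (q : ℤ) ∣ l 0 * v + ∑ i : Fin k, l i.succ * b i)).card := by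
      refine Finset.card_le_card_of_injOn (fun e => e 0) ?_ ?_
      · intro e he
        have he1 : e ∈ (sols X q l).filter (fun e => Fin.tail e = b) := he
        unfold sols at he1
        rw [mem_filter, mem_filter, Fintype.mem_piFinset] at he1
        obtain ⟨⟨h3, h4⟩, h5⟩ := he1
        rw [mem_coe, mem_filter]
        refine ⟨h3 0, ?_⟩
        rw [Fin.sum_univ_succ] at h4
        have h6 : ∀ i : Fin k, b i = e i.succ := fun i => by rw [← h5]; rfl
        simp only [h6]
        exact h4
      · intro e he e' he' h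
        have he1 : e ∈ (sols X q l).filter (fun e => Fin.tail e = b) := he
        have he2 : e' ∈ (sols X q l).filter (fun e => Fin.tail e = b) := he'
        rw [mem_filter] at he1 he2
        simp only at h
        rw [← Fin.cons_self_tail e, ← Fin.cons_self_tail e', h, he1.2, he2.2]
    exact_mod_cast this
  refine (Finset.sum_le_sum h2).trans ?_
  rw [Finset.sum_const, nsmul_eq_mul, Fintype.card_piFinset]
  simp

end Pool.Agent.PnPoly.NC
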