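import Pool.Agent.PnPoly.NC.Mert
import Pool.Agent.PnPoly.NC.Param

/-!
# The average of the singular factor over pairs
-/

open Finset Filter
open Pool.Agent.HL26

namespace Pool.Agent.PnPoly.NC

/-- the weight `∏_{p ∈ T} 1/(p-1)` -/
noncomputable def gw (T : Finset ℕ) : ℝ := ∏ p ∈ T, 1 / ((p:ℝ) - 1)

lemma gw_nonneg {y : ℕ} {T : Finset ℕ} (hT : T ⊆ PPy y) : 0 ≤ gw T := by
  unfold gw
  refine Finset.prod_nonneg fun p hp => ?_
  have h2 : (2:ℝ) ≤ p := by exact_mod_cast (PPy_prime y p (hT hp)).two_le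
  have : 0 < (p:ℝ) - 1 := by linarith
  positivity

lemma exists_sub_prod {y : ℕ} (hy : 1 ≤ y) {T : Finset ℕ} (hT : T ⊆ PPy y) (hlt : y < ∏ p ∈ T, p) :
    ∃ T' ⊆ T, ∏ p ∈ T', p ≤ y ∧ y < (∏ p ∈ T', p) ^ 2 := by
  classical
  have hne : (T.powerset.filter (fun T' => ∏ p ∈ T', p ≤ y)).Nonempty :=
    ⟨∅, by rw [mem_filter, mem_powerset]; exact ⟨empty_subset _, by simpa using hy⟩⟩
  obtain ⟨T', hT', hmax⟩ := Finset.exists_max_image _ (fun T' => ∏ p ∈ T', p) hne
  rw [mem_filter, mem_powerset] at hT'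
  refine ⟨T', hT'.1, hT'.2, ?_⟩
  have hneT : T' ≠ T := by
    rintro rfl
    omega
  obtain ⟨p, hpT, hpT'⟩ := Finset.exists_of_ssubset (lt_of_le_of_ne hT'.1 hneT)
  have hpp : p.Prime := PPy_prime y p (hT hpT)
  have hpy : p ≤ y := by
    have := hT hpT
    unfold PPy at this
    rw [mem_filter, mem_range] at this
    omega
  have hpos : 0 < ∏ p ∈ T', p := Finset.prod_pos fun a ha => (PPy_prime y a (hT (hT'.1 ha))).pos
  have h1 : p ≤ ∏ p ∈ T', p := by
    have := hmax {p} (by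
      rw [mem_filter, mem_powerset]
      exact ⟨by simpa using hpT, by simpa using hpy⟩)
    simpa using this
  have h2 : y < p * ∏ p ∈ T', p := by
    by_contra hcon
    push Not at hcon
    have h3 := hmax (insert p T') (by
      rw [mem_filter, mem_powerset, prod_insert hpT']
      exact ⟨by rw [insert_subset_iff]; exact ⟨hpT, hT'.1⟩, hcon⟩)
    rw [prod_insert hpT'] at h3
    have := hpp.two_le
    nlinarith
  nlinarith

lemma sum_gw_le (y : ℕ) (hy : 2 ≤ y) :
    ∑ T ∈ (PPy y).powerset, gw T ≤ Real.exp 5 * Real.log y := by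
  refine le_trans (le_of_eq ?_) (prod_fac_le y hy)
  unfold gw
  rw [← Finset.prod_one_add]
  refine Finset.prod_congr rfl fun p hp => ?_
  rw [fac_eq p (PPy_prime y p hp)]

lemma sum_gw_rpow_le {c : ℝ} (hc : 0 < c) : ∃ K : ℝ, 0 < K ∧ ∀ y : ℕ,
    ∑ T ∈ (PPy y).powerset, gw T * (((∏ p ∈ T, p : ℕ) : ℝ)) ^ (-c) ≤ K := by
  have hsum : Summable (fun n : ℕ => 2 * (n:ℝ) ^ (-(1 + c))) :=
    (Real.summable_nat_rpow.mpr (by linarith)).mul_left 2
  refine ⟨Real.exp (∑' n : ℕ, 2 * (n:ℝ) ^ (-(1 + c))), Real.exp_pos _, fun y => ?_⟩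
  have h1 : ∀ T ∈ (PPy y).powerset, gw T * (((∏ p ∈ T, p : ℕ) : ℝ)) ^ (-c) =
      ∏ p ∈ T, (1 / ((p:ℝ) - 1) * (p:ℝ) ^ (-c)) := by
    intro T _
    unfold gw
    rw [Finset.prod_mul_distrib]
    congr 1
    push_cast
    rw [Real.finsetProd_rpow _ _ (fun p _ => by positivity)]
  rw [Finset.sum_congr rfl h1, ← Finset.prod_one_add]
  calc ∏ p ∈ PPy y, (1 + 1 / ((p:ℝ) - 1) * (p:ℝ) ^ (-c)) ≤
      ∏ p ∈ PPy y, Real.exp (2 * (p:ℝ) ^ (-(1 + c))) := by
        refine Finset.prod_le_prod (fun p hp => ?_) fun p hp => ?_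
        · have h2 : (2:ℝ) ≤ p := by exact_mod_cast (PPy_prime y p hp).two_le
          have : 0 < (p:ℝ) - 1 := by linarith
          positivity
        · have h2 : (2:ℝ) ≤ p := by exact_mod_cast (PPy_prime y p hp).two_le
          have h3 : 0 < (p:ℝ) - 1 := by linarith
          have h4 : 1 / ((p:ℝ) - 1) ≤ 2 * (p:ℝ) ^ (-1 : ℝ) := by
            rw [Real.rpow_neg_one, div_le_iff₀ h3]
            have h5 : (p:ℝ)⁻¹ * p = 1 := inv_mul_cancel₀ (by linarith)
            have h6 : 0 < (p:ℝ)⁻¹ := by positivity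
            nlinarith
          have h7 : 0 < (p:ℝ) ^ (-c) := Real.rpow_pos_of_pos (by linarith) _
          have h8 : 1 / ((p:ℝ) - 1) * (p:ℝ) ^ (-c) ≤ 2 * (p:ℝ) ^ (-(1 + c)) := by
            calc 1 / ((p:ℝ) - 1) * (p:ℝ) ^ (-c) ≤ (2 * (p:ℝ) ^ (-1 : ℝ)) * (p:ℝ) ^ (-c) :=
                  mul_le_mul_of_nonneg_right h4 h7.le
              _ = 2 * (p:ℝ) ^ (-(1 + c)) := by
                  rw [mul_assoc, ← Real.rpow_add (by linarith)]
                  congr 2
                  ring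
          calc 1 + 1 / ((p:ℝ) - 1) * (p:ℝ) ^ (-c) ≤ 2 * (p:ℝ) ^ (-(1 + c)) + 1 := by linarith
            _ ≤ _ := Real.add_one_le_exp _
    _ = Real.exp (∑ p ∈ PPy y, 2 * (p:ℝ) ^ (-(1 + c))) := by rw [Real.exp_sum]
    _ ≤ _ := by
        apply Real.exp_le_exp.mpr
        exact hsum.sum_le_tsum _ fun n _ => by positivity

/-- splitting of `d/φ(d)` at `log N` -/
lemma G0_le_sum {K y d : ℕ} (hy : 3 ≤ y) (hd : 1 ≤ d) (hlogd : Real.log d ≤ K * (2 * y)) :
    G0 d ≤ Real.exp (2 * K) * ∑ T ∈ (PPy y).powerset, if (∏ p ∈ T, p) ∣ d then gw T else 0 := by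
  classical
  have hy3 : (3:ℝ) ≤ y := by exact_mod_cast hy
  have hlogy : 1 ≤ Real.log y := by
    rw [Real.le_log_iff_exp_le (by linarith)]
    have := Real.exp_one_lt_d9
    linarith
  set S := d.primeFactors.filter (fun p => p ≤ y) with hS
  set U := d.primeFactors.filter (fun p => ¬ p ≤ y) with hU
  have hG : G0 d = (∏ p ∈ S, (1 - 1 / (p : ℝ))⁻¹) * ∏ p ∈ U, (1 - 1 / (p : ℝ))⁻¹ := by
    unfold G0
    rw [hS, hU, Finset.prod_filter_mul_prod_filter_not]
  have hUle : ∏ p ∈ U, (1 - 1 / (p : ℝ))⁻¹ ≤ Real.exp (2 * K) := by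
    have hUc := card_prime_dvd_le y d (by omega) hd U (fun p hp => by
        rw [hU, mem_filter] at hp; omega)
      (fun p hp => Nat.prime_of_mem_primeFactors (mem_filter.mp (hU ▸ hp)).1)
      (fun p hp => Nat.dvd_of_mem_primeFactors (mem_filter.mp (hU ▸ hp)).1)
    calc ∏ p ∈ U, (1 - 1 / (p : ℝ))⁻¹ ≤ ∏ p ∈ U, Real.exp (1 / y) := by
          refine Finset.prod_le_prod (fun p hp => ?_) fun p hp => ?_
          · exact (inv_pos.mpr (one_sub_inv_pos p
              (Nat.prime_of_mem_primeFactors (mem_filter.mp (hU ▸ hp)).1))).le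
          · have hpp := Nat.prime_of_mem_primeFactors (mem_filter.mp (hU ▸ hp)).1
            have h1 : ¬ p ≤ y := by rw [hU, mem_filter] at hp; exact hp.2
            have h2 : (y:ℝ) + 1 ≤ p := by exact_mod_cast (by omega : y + 1 ≤ p)
            rw [fac_eq p hpp, add_comm]
            refine (Real.add_one_le_exp _).trans (Real.exp_le_exp.mpr ?_)
            exact one_div_le_one_div_of_le (by linarith) (by linarith)
      _ = Real.exp (U.card * (1 / y)) := by rw [Finset.prod_const, ← Real.exp_nat_mul]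
      _ ≤ Real.exp (2 * K) := by
          apply Real.exp_le_exp.mpr
          have h3 : (U.card : ℝ) ≤ K * (2 * y) := by
            refine hUc.trans ?_
            rw [div_le_iff₀ (by linarith)]
            have : (0:ℝ) ≤ K * (2 * y) := by positivity
            nlinarith
          rw [mul_one_div, div_le_iff₀ (by linarith)]
          linarith
  have hSle : ∏ p ∈ S, (1 - 1 / (p : ℝ))⁻¹ ≤
      ∑ T ∈ (PPy y).powerset, if (∏ p ∈ T, p) ∣ d then gw T else 0 := by
    have h1 : ∏ p ∈ S, (1 - 1 / (p : ℝ))⁻¹ = ∑ T ∈ S.powerset, gw T := by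
      unfold gw
      rw [← Finset.prod_one_add]
      refine Finset.prod_congr rfl fun p hp => ?_
      rw [fac_eq p (Nat.prime_of_mem_primeFactors (mem_filter.mp (hS ▸ hp)).1)]
    rw [h1, ← Finset.sum_filter]
    apply Finset.sum_le_sum_of_subset_of_nonneg
    · intro T hT
      rw [mem_powerset] at hT
      rw [mem_filter, mem_powerset]
      refine ⟨fun p hp => ?_, ?_⟩
      · have := hT hp
        rw [hS, mem_filter] at this
        unfold PPy
        rw [mem_filter, mem_range]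
        exact ⟨by omega, Nat.prime_of_mem_primeFactors this.1⟩
      · exact Finset.prod_primes_dvd d
          (fun p hp => (Nat.prime_of_mem_primeFactors (mem_filter.mp (hS ▸ hT hp)).1).prime)
          (fun p hp => Nat.dvd_of_mem_primeFactors (mem_filter.mp (hS ▸ hT hp)).1)
    · intro T hT _
      exact gw_nonneg (mem_powerset.mp (mem_filter.mp hT).1)
  rw [hG, mul_comm]
  refine mul_le_mul hUle hSle (Finset.prod_nonneg fun p hp => ?_) (Real.exp_pos _).le
  exact (inv_pos.mpr (one_sub_inv_pos p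
    (Nat.prime_of_mem_primeFactors (mem_filter.mp (hS ▸ hp)).1))).le

theorem pair_sum {C c : ℝ} (K : ℕ) (hC : 0 ≤ C) (hc : 0 < c) : ∃ C' : ℝ, 0 < C' ∧
    ∀ᶠ N : ℕ in atTop, ∀ r : ℕ → ℤ, ∀ I ⊆ range N,
    (∀ n ∈ I, ∀ m ∈ I, n ≠ m → r n ≠ r m ∧ ((r n - r m).natAbs : ℝ) ≤ (N:ℝ) ^ K) →
    (∀ e : ℕ, 1 ≤ e → (e:ℝ) ≤ Real.log N → ∀ ρ : ℤ,
      ((I.filter (fun m => (e:ℤ) ∣ r m - ρ)).card : ℝ) ≤ C * N * (e:ℝ) ^ (-c)) →
    ∑ p ∈ (I ×ˢ I).filter (fun p => p.1 ≠ p.2), G0 ((r p.1 - r p.2).natAbs) ≤ C' * (N:ℝ) ^ 2 := by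
  classical
  obtain ⟨K2, hK2, hsum2⟩ := sum_gw_rpow_le hc
  have hc2 : 0 < c / 2 := by positivity
  refine ⟨Real.exp (2 * K) * (C + 1) * (K2 + Real.exp 5 * (2 / c)), by positivity, ?_⟩
  filter_upwards [tendsto_log_natCast.eventually_ge_atTop 4, eventually_ge_atTop 1] with N hl hN1
  intro r I hI hr hcount
  set y := ⌊Real.log N⌋₊ with hy
  have hN0 : (0:ℝ) < N := by exact_mod_cast hN1
  have hy3 : 3 ≤ y := Nat.le_floor (by push_cast; linarith)
  have hyle : (y:ℝ) ≤ Real.log N := Nat.floor_le (by linarith)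
  have hyge : Real.log N ≤ 2 * y := by
    have := Nat.lt_floor_add_one (Real.log N)
    rw [← hy] at this
    have h3 : (3:ℝ) ≤ y := by exact_mod_cast hy3
    linarith
  have hy3' : (3:ℝ) ≤ y := by exact_mod_cast hy3
  have hIc : (I.card : ℝ) ≤ N := by
    have := Finset.card_le_card hI
    rw [card_range] at this
    exact_mod_cast this
  set PR := (I ×ˢ I).filter (fun p => p.1 ≠ p.2) with hPR
  -- pairs divisible by e
  have hpairs : ∀ e : ℕ, 1 ≤ e → (e:ℝ) ≤ Real.log N →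
      ((PR.filter (fun p => e ∣ (r p.1 - r p.2).natAbs)).card : ℝ) ≤ N * (C * N * (e:ℝ) ^ (-c)) := by
    intro e he hel
    have h1 : (PR.filter (fun p => e ∣ (r p.1 - r p.2).natAbs)).card ≤
        ∑ m ∈ I, (I.filter (fun n => (e:ℤ) ∣ r n - r m)).card := by
      have h2 : PR.filter (fun p => e ∣ (r p.1 - r p.2).natAbs) ⊆
          (I.sigma (fun m => I.filter (fun n => (e:ℤ) ∣ r n - r m))).image (fun s => (s.2, s.1)) := by
        rintro ⟨n, m⟩ hp
        rw [mem_filter, hPR, mem_filter, mem_product] at hp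
        rw [mem_image]
        refine ⟨⟨m, n⟩, ?_, rfl⟩
        rw [mem_sigma, mem_filter]
        exact ⟨hp.1.1.2, hp.1.1.1, Int.natCast_dvd.mpr hp.2⟩
      refine (Finset.card_le_card h2).trans (Finset.card_image_le.trans ?_)
      rw [Finset.card_sigma]
    have h3 : ((PR.filter (fun p => e ∣ (r p.1 - r p.2).natAbs)).card : ℝ) ≤
        ∑ m ∈ I, (C * N * (e:ℝ) ^ (-c)) := by
      have h4 : ((PR.filter (fun p => e ∣ (r p.1 - r p.2).natAbs)).card : ℝ) ≤
        ∑ m ∈ I, ((I.filter (fun n => (e:ℤ) ∣ r n - r m)).card : ℝ) := by exact_mod_cast h1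
      exact h4.trans (Finset.sum_le_sum fun m _ => hcount e he hel (r m))
    rw [Finset.sum_const, nsmul_eq_mul] at h3
    refine h3.trans ?_
    have h0 : (0:ℝ) < e := by exact_mod_cast he
    gcongr
  have hT : ∀ T ∈ (PPy y).powerset,
      ((PR.filter (fun p => (∏ p ∈ T, p) ∣ (r p.1 - r p.2).natAbs)).card : ℝ) ≤
      (C * N ^ 2) * ((((∏ p ∈ T, p : ℕ) : ℝ)) ^ (-c) + (y:ℝ) ^ (-(c / 2))) := by
    intro T hTm
    rw [mem_powerset] at hTm
    have hpos : 0 < ∏ p ∈ T, p := Finset.prod_pos fun a ha => (PPy_prime y a (hTm ha)).pos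
    have hyr : 0 ≤ (y:ℝ) ^ (-(c / 2)) := by positivity
    have hpr : 0 ≤ (((∏ p ∈ T, p : ℕ) : ℝ)) ^ (-c) := by positivity
    by_cases hle : ∏ p ∈ T, p ≤ y
    · have h1 := hpairs (∏ p ∈ T, p) hpos (by
        have : (((∏ p ∈ T, p : ℕ) : ℝ)) ≤ y := by exact_mod_cast hle
        linarith)
      refine h1.trans ?_
      calc (N:ℝ) * (C * N * (((∏ p ∈ T, p : ℕ) : ℝ)) ^ (-c)) =
          (C * N ^ 2) * ((((∏ p ∈ T, p : ℕ) : ℝ)) ^ (-c)) := by ring
        _ ≤ _ := by
          apply mul_le_mul_of_nonneg_left _ (by positivity)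
          linarith
    · push Not at hle
      obtain ⟨T', hT'T, hT'y, hT'2⟩ := exists_sub_prod (by omega) hTm hle
      set e := ∏ p ∈ T', p with he
      have hepos : 0 < e := Finset.prod_pos fun a ha => (PPy_prime y a (hTm (hT'T ha))).pos
      have h1 := hpairs e hepos (by
        have : (e : ℝ) ≤ y := by exact_mod_cast hT'y
        linarith)
      have h2 : ((PR.filter (fun p => (∏ p ∈ T, p) ∣ (r p.1 - r p.2).natAbs)).card : ℝ) ≤
          ((PR.filter (fun p => e ∣ (r p.1 - r p.2).natAbs)).card : ℝ) := by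
        have : PR.filter (fun p => (∏ p ∈ T, p) ∣ (r p.1 - r p.2).natAbs) ⊆
            PR.filter (fun p => e ∣ (r p.1 - r p.2).natAbs) := by
          intro p hp
          rw [mem_filter] at hp ⊢
          exact ⟨hp.1, (Finset.prod_dvd_prod_of_subset _ _ _ hT'T).trans hp.2⟩
        exact_mod_cast Finset.card_le_card this
      refine h2.trans (h1.trans ?_)
      have he2 : (e:ℝ) ^ (-c) ≤ (y:ℝ) ^ (-(c / 2)) := by
        have h3 : (y:ℝ) ≤ (e:ℝ) ^ 2 := by exact_mod_cast hT'2.le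
        have h4 : (e:ℝ) ^ (-c) = ((e:ℝ) ^ 2) ^ (-(c / 2)) := by
          rw [← Real.rpow_natCast, ← Real.rpow_mul (by positivity)]
          congr 1
          push_cast
          ring
        rw [h4]
        exact Real.rpow_le_rpow_of_nonpos (by linarith) h3 (by linarith)
      calc (N:ℝ) * (C * N * (e:ℝ) ^ (-c)) = (C * N ^ 2) * (e:ℝ) ^ (-c) := by ring
        _ ≤ _ := by
          apply mul_le_mul_of_nonneg_left _ (by positivity)
          linarith
  -- main computation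
  have hmain : ∑ p ∈ PR, G0 ((r p.1 - r p.2).natAbs) ≤ Real.exp (2 * K) *
      ∑ T ∈ (PPy y).powerset, ((C * N ^ 2) *
        ((((∏ p ∈ T, p : ℕ) : ℝ)) ^ (-c) + (y:ℝ) ^ (-(c / 2)))) * gw T := by
    calc ∑ p ∈ PR, G0 ((r p.1 - r p.2).natAbs) ≤ ∑ p ∈ PR, Real.exp (2 * K) *
        ∑ T ∈ (PPy y).powerset, (if (∏ p ∈ T, p) ∣ (r p.1 - r p.2).natAbs then gw T else 0) := by
          refine Finset.sum_le_sum fun p hp => ?_
          rw [hPR, mem_filter, mem_product] at hp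
          obtain ⟨hne, hsize⟩ := hr p.1 hp.1.1 p.2 hp.1.2 hp.2
          have hd : 1 ≤ (r p.1 - r p.2).natAbs := by
            have : (r p.1 - r p.2).natAbs ≠ 0 := Int.natAbs_ne_zero.mpr (sub_ne_zero.mpr hne)
            omega
          refine G0_le_sum hy3 hd ?_
          have h5 := Real.log_le_log (by exact_mod_cast hd) hsize
          rw [Real.log_pow] at h5
          refine h5.trans ?_
          gcongr
      _ = Real.exp (2 * K) * ∑ T ∈ (PPy y).powerset, ∑ p ∈ PR,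
          (if (∏ p ∈ T, p) ∣ (r p.1 - r p.2).natAbs then gw T else 0) := by
          rw [← Finset.mul_sum, Finset.sum_comm]
      _ ≤ _ := by
          apply mul_le_mul_of_nonneg_left _ (Real.exp_pos _).le
          refine Finset.sum_le_sum fun T hTm => ?_
          rw [← Finset.sum_filter, Finset.sum_const, nsmul_eq_mul]
          exact mul_le_mul_of_nonneg_right (hT T hTm) (gw_nonneg (mem_powerset.mp hTm))
  refine hmain.trans ?_
  have hsplit : ∑ T ∈ (PPy y).powerset, ((C * N ^ 2) *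
        ((((∏ p ∈ T, p : ℕ) : ℝ)) ^ (-c) + (y:ℝ) ^ (-(c / 2)))) * gw T =
      (C * N ^ 2) * (∑ T ∈ (PPy y).powerset, gw T * (((∏ p ∈ T, p : ℕ) : ℝ)) ^ (-c) +
        (y:ℝ) ^ (-(c / 2)) * ∑ T ∈ (PPy y).powerset, gw T) := by
    rw [Finset.mul_sum (a := (y:ℝ) ^ (-(c / 2))), ← Finset.sum_add_distrib, Finset.mul_sum]
    refine Finset.sum_congr rfl fun T _ => ?_
    ring
  have h6 : (y:ℝ) ^ (-(c / 2)) * ∑ T ∈ (PPy y).powerset, gw T ≤ Real.exp 5 * (2 / c) := by
    have h7 := sum_gw_le y (by omega)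
    have h8 : Real.log y ≤ (y:ℝ) ^ (c / 2) / (c / 2) := Real.log_le_rpow_div (by positivity) hc2
    have h9 : (y:ℝ) ^ (-(c / 2)) * (y:ℝ) ^ (c / 2) = 1 := by
      rw [← Real.rpow_add (by linarith)]; simp
    calc (y:ℝ) ^ (-(c / 2)) * ∑ T ∈ (PPy y).powerset, gw T ≤
        (y:ℝ) ^ (-(c / 2)) * (Real.exp 5 * ((y:ℝ) ^ (c / 2) / (c / 2))) := by
          apply mul_le_mul_of_nonneg_left _ (by positivity)
          exact h7.trans (mul_le_mul_of_nonneg_left h8 (Real.exp_pos _).le)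
      _ = Real.exp 5 * (2 / c) * ((y:ℝ) ^ (-(c / 2)) * (y:ℝ) ^ (c / 2)) := by
          field_simp
      _ = _ := by rw [h9, mul_one]
  rw [hsplit]
  have h7 := hsum2 y
  have h8 : (0:ℝ) ≤ K2 + Real.exp 5 * (2 / c) := by positivity
  calc Real.exp (2 * K) * ((C * N ^ 2) * (∑ T ∈ (PPy y).powerset, gw T * (((∏ p ∈ T, p : ℕ) : ℝ)) ^ (-c) +
        (y:ℝ) ^ (-(c / 2)) * ∑ T ∈ (PPy y).powerset, gw T))
      ≤ Real.exp (2 * K) * ((C * N ^ 2) * (K2 + Real.exp 5 * (2 / c))) := by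
        apply mul_le_mul_of_nonneg_left _ (Real.exp_pos _).le
        apply mul_le_mul_of_nonneg_left _ (by positivity)
        linarith
    _ ≤ Real.exp (2 * K) * (((C + 1) * N ^ 2) * (K2 + Real.exp 5 * (2 / c))) := by
        gcongr
        linarith
    _ = _ := by ring

end Pool.Agent.PnPoly.NC
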