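import Mathlib

/-!
# Divided difference weights
-/

open Finset Matrix

namespace Pool.Agent.PnPoly.NC

/-- Integer weights annihilating the polynomials of degree `< k` at the `k + 1` nodes `v`. -/
noncomputable def wt {k : ℕ} (v : Fin (k + 1) → ℤ) (i : Fin (k + 1)) : ℤ :=
  (Matrix.vandermonde v).adjugate (Fin.last k) i

lemma wt_cast {k : ℕ} (v : Fin (k + 1) → ℤ) (i : Fin (k + 1)) :
    ((wt v i : ℤ) : ℚ) = (Matrix.vandermonde (fun j => (v j : ℚ))).adjugate (Fin.last k) i := by
  have h := (Int.castRingHom ℚ).map_adjugate (Matrix.vandermonde v)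
  have h2 : (Int.castRingHom ℚ).mapMatrix (Matrix.vandermonde v) =
      Matrix.vandermonde (fun j => (v j : ℚ)) := by
    ext a b
    simp [Matrix.vandermonde_apply]
  rw [h2] at h
  rw [← h]
  simp [wt]

lemma wt_sum_eval {k : ℕ} (v : Fin (k + 1) → ℤ) (P : Polynomial ℚ) (hP : P.natDegree < k)
    (n : ℚ) : ∑ i, ((wt v i : ℤ) : ℚ) * P.eval (n + v i) = 0 := by
  set R := P.comp (Polynomial.X + Polynomial.C n) with hR
  have hRdeg : R.natDegree < k := by
    rw [hR, Polynomial.natDegree_comp]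
    have : (Polynomial.X + Polynomial.C n : Polynomial ℚ).natDegree = 1 :=
      Polynomial.natDegree_X_add_C n
    rw [this, mul_one]
    exact hP
  set A := Matrix.vandermonde (fun j => (v j : ℚ)) with hA
  set a : Fin (k + 1) → ℚ := fun c => R.coeff c with ha
  have hy : ∀ i, P.eval (n + v i) = (A *ᵥ a) i := by
    intro i
    have h1 : P.eval (n + v i) = R.eval (v i : ℚ) := by
      rw [hR, Polynomial.eval_comp]
      simp [add_comm]
    rw [h1, Polynomial.eval_eq_sum_range' (n := k + 1) (by omega), Matrix.mulVec, dotProduct,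
      Finset.sum_range]
    refine Finset.sum_congr rfl fun c _ => ?_
    rw [hA, Matrix.vandermonde_apply, ha, mul_comm]
  have h2 : ∑ i, ((wt v i : ℤ) : ℚ) * P.eval (n + v i) =
      (A.adjugate *ᵥ (A *ᵥ a)) (Fin.last k) := by
    rw [Matrix.mulVec, dotProduct]
    refine Finset.sum_congr rfl fun i _ => ?_
    rw [hy i, wt_cast]
  rw [h2, Matrix.mulVec_mulVec, Matrix.adjugate_mul, Matrix.smul_mulVec, Matrix.one_mulVec]
  have h3 : a (Fin.last k) = 0 := by
    rw [ha]
    exact Polynomial.coeff_eq_zero_of_natDegree_lt (by simpa using hRdeg)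
  simp [h3]

lemma wt_sum {k : ℕ} (hk : 1 ≤ k) (v : Fin (k + 1) → ℤ) : ∑ i, wt v i = 0 := by
  have h := wt_sum_eval v (Polynomial.C 1) (by simp; omega) 0
  simp only [Polynomial.eval_C, mul_one] at h
  exact_mod_cast h

lemma wt_zero {k : ℕ} (v : Fin (k + 1) → ℤ) :
    wt v 0 = (-1) ^ k * ∏ i : Fin k, ∏ j ∈ Ioi i, (v j.succ - v i.succ) := by
  unfold wt
  rw [Matrix.adjugate_fin_succ_eq_det_submatrix]
  have h : (Matrix.vandermonde v).submatrix (Fin.succAbove 0) (Fin.succAbove (Fin.last k)) =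
      Matrix.vandermonde (fun i : Fin k => v i.succ) := by
    ext a b
    simp [Matrix.vandermonde_apply]
  rw [h, Matrix.det_vandermonde]
  simp

lemma wt_zero_ne {k : ℕ} {v : Fin (k + 1) → ℤ} (hv : Function.Injective v) : wt v 0 ≠ 0 := by
  rw [wt_zero]
  refine mul_ne_zero (by simp) ?_
  refine Finset.prod_ne_zero_iff.mpr fun i _ => Finset.prod_ne_zero_iff.mpr fun j hj => ?_
  rw [Finset.mem_Ioi] at hj
  intro h
  have h2 := hv (sub_eq_zero.mp h)
  have h3 := Fin.succ_injective _ h2
  exact absurd h3 hj.ne'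

lemma abs_wt_zero_le {k : ℕ} {v : Fin (k + 1) → ℤ} {J : ℕ} (hJ : 1 ≤ J)
    (hv0 : ∀ i, 0 ≤ v i) (hv : ∀ i, v i < J) : |wt v 0| ≤ (J : ℤ) ^ (k * k) := by
  rw [wt_zero, abs_mul, abs_pow, abs_neg, abs_one, one_pow, one_mul, Finset.abs_prod]
  have hJ1 : (1:ℤ) ≤ J := by exact_mod_cast hJ
  calc ∏ i : Fin k, |∏ j ∈ Ioi i, (v j.succ - v i.succ)| ≤ ∏ i : Fin k, (J:ℤ) ^ k := by
        refine Finset.prod_le_prod (fun _ _ => abs_nonneg _) fun i _ => ?_
        rw [Finset.abs_prod]
        calc ∏ j ∈ Ioi i, |v j.succ - v i.succ| ≤ ∏ j ∈ Ioi i, (J:ℤ) := by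
              refine Finset.prod_le_prod (fun _ _ => abs_nonneg _) fun j _ => ?_
              have h1 := hv0 j.succ
              have h2 := hv0 i.succ
              have h3 := hv j.succ
              have h4 := hv i.succ
              rw [abs_le]
              constructor <;> omega
          _ = (J:ℤ) ^ (Ioi i).card := by rw [Finset.prod_const]
          _ ≤ (J:ℤ) ^ k := by
              refine pow_le_pow_right₀ hJ1 ?_
              refine (Finset.card_le_univ _).trans ?_
              simp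
    _ = (J:ℤ) ^ (k * k) := by
        rw [Finset.prod_const, Finset.card_univ, Fintype.card_fin, ← pow_mul]

end Pool.Agent.PnPoly.NC
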