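import Pool.Agent.HL26.SieveD
import Pool.Agent.HL26.Second
import Pool.Agent.PnPoly.NC.Count
import Pool.Agent.PnPoly.NC.Weights

/-!
# Windows of consecutive primes whose gaps satisfy a linear congruence
-/

open Finset Filter
open Pool.Agent.HL26

namespace Pool.Agent.PnPoly.NC

/-- The primes in increasing order, `np 0 = 2`. -/
noncomputable def np (n : ℕ) : ℕ := Nat.nth Nat.Prime n

lemma np_prime (n : ℕ) : (np n).Prime := Nat.prime_nth_prime n

lemma np_strictMono : StrictMono np := Nat.nth_strictMono Nat.infinite_setOfPred_prime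

/-- Admissible `(k+1)`-element subsets of `[0, 2L]` satisfying the linear congruence. -/
noncomputable def goods (k L q : ℕ) (l : Fin (k + 1) → ℤ) : Finset (Finset ℕ) := by
  classical
  exact ((sols (2 * L + 1) q l).image (fun e => univ.image e)).filter
    (fun E => E.card = k + 1 ∧ ∀ p, p.Prime → nu E p < p)

lemma card_goods_le (k L q : ℕ) (l : Fin (k + 1) → ℤ) :
    (goods k L q l).card ≤ (sols (2 * L + 1) q l).card := by
  classical
  unfold goods
  exact (Finset.card_filter_le _ _).trans Finset.card_image_le

lemma goods_subset (k L q : ℕ) (l : Fin (k + 1) → ℤ) :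
    goods k L q l ⊆ (range (2 * L + 1)).powersetCard (k + 1) := by
  classical
  intro E hE
  unfold goods at hE
  rw [mem_filter, mem_image] at hE
  obtain ⟨⟨e, he, rfl⟩, hc, _⟩ := hE
  rw [mem_powersetCard]
  refine ⟨?_, hc⟩
  intro a ha
  rw [mem_image] at ha
  obtain ⟨i, _, rfl⟩ := ha
  unfold sols at he
  rw [mem_filter, Fintype.mem_piFinset] at he
  exact he.1 i

lemma mem_goods {k L q : ℕ} {l : Fin (k + 1) → ℤ} {E : Finset ℕ} (h : E ∈ goods k L q l) :
    E.card = k + 1 ∧ ∀ p, p.Prime → nu E p < p := by
  classical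
  unfold goods at h
  rw [mem_filter] at h
  exact h.2

lemma window_count {k : ℕ} {L q : ℕ} {x : ℝ} {l : Fin (k + 1) → ℤ}
    (hl : ∑ i, l i = 0) (hkL : k + 1 ≤ L) {j : Fin (k + 1) → ℕ} (hj : StrictMono j)
    {S : Finset ℕ} (h1 : ∀ n ∈ S, L < np (n + j 0))
    (h2 : ∀ n ∈ S, (np (n + j (Fin.last k)) : ℝ) ≤ x)
    (h3 : ∀ n ∈ S, np (n + j (Fin.last k)) ≤ np (n + j 0) + L)
    (h4 : ∀ n ∈ S, (q : ℤ) ∣ ∑ i, l i * (np (n + j i) : ℤ)) :
    (L + 1) * S.card ≤ ∑ E ∈ goods k L q l, tupleCount x E := by
  classical
  set T : Finset ((_ : Finset ℕ) × ℕ) := (goods k L q l).sigma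
    (fun E => (Finset.Icc 1 ⌊x⌋₊).filter (fun m => ∀ e ∈ E, Nat.Prime (m + e))) with hT
  have hTc : T.card = ∑ E ∈ goods k L q l, tupleCount x E := by
    rw [hT, Finset.card_sigma]; rfl
  rw [← hTc, mul_comm, show S.card * (L + 1) = (S ×ˢ range (L + 1)).card by
    rw [card_product, card_range]]
  -- the map
  set ef : ℕ → ℕ → Fin (k + 1) → ℕ := fun n t i => np (n + j i) - (np (n + j 0) - t) with hef
  have hbase : ∀ n ∈ S, ∀ t ∈ range (L + 1), t < np (n + j 0) := by
    intro n hn t ht
    rw [mem_range] at ht
    have := h1 n hn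
    omega
  have hle : ∀ n : ℕ, ∀ i, np (n + j 0) ≤ np (n + j i) := fun n i =>
    np_strictMono.monotone (by have := hj.monotone (Fin.zero_le i); omega)
  have hle2 : ∀ n : ℕ, ∀ i, np (n + j i) ≤ np (n + j (Fin.last k)) := fun n i =>
    np_strictMono.monotone (by have := hj.monotone (Fin.le_last i); omega)
  have hmono : ∀ n ∈ S, ∀ t ∈ range (L + 1), StrictMono (ef n t) := by
    intro n hn t ht a b hab
    have h5 : np (n + j a) < np (n + j b) := np_strictMono (by have := hj hab; omega)
    have h6 := hle n a
    have h7 := hbase n hn t ht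
    simp only [hef]
    omega
  have hef0 : ∀ n ∈ S, ∀ t ∈ range (L + 1), ef n t 0 = t := by
    intro n hn t ht
    have h7 := hbase n hn t ht
    simp only [hef]
    omega
  have hadd : ∀ n ∈ S, ∀ t ∈ range (L + 1), ∀ i,
      np (n + j 0) - t + ef n t i = np (n + j i) := by
    intro n hn t ht i
    have h7 := hbase n hn t ht
    have h6 := hle n i
    simp only [hef]
    omega
  refine Finset.card_le_card_of_injOn
    (fun p : ℕ × ℕ => (⟨univ.image (ef p.1 p.2), np (p.1 + j 0) - p.2⟩ : (_ : Finset ℕ) × ℕ)) ?_ ?_
  · rintro ⟨n, t⟩ hp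
    rw [mem_coe, mem_product] at hp
    obtain ⟨hn, ht⟩ := hp
    simp only at hn ht ⊢
    rw [mem_coe, hT, mem_sigma]
    have htL : t ≤ L := by rw [mem_range] at ht; omega
    refine ⟨?_, ?_⟩
    · simp only
      unfold goods
      rw [mem_filter, mem_image]
      refine ⟨⟨ef n t, ?_, rfl⟩, ?_, ?_⟩
      · unfold sols
        rw [mem_filter, Fintype.mem_piFinset]
        constructor
        · intro i
          rw [mem_range]
          have h5 := hadd n hn t ht i
          have h6 := hle2 n i
          have h7 := h3 n hn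
          have h8 := hbase n hn t ht
          omega
        · have h5 : ∑ i, l i * ((ef n t i : ℕ) : ℤ) = ∑ i, l i * (np (n + j i) : ℤ) -
              (∑ i, l i) * (np (n + j 0) - t : ℕ) := by
            rw [Finset.sum_mul, ← Finset.sum_sub_distrib]
            refine Finset.sum_congr rfl fun i _ => ?_
            rw [← hadd n hn t ht i]
            push_cast
            ring
          rw [h5, hl, zero_mul, sub_zero]
          exact h4 n hn
      · rw [Finset.card_image_of_injective _ (hmono n hn t ht).injective, card_univ,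
          Fintype.card_fin]
      · intro p hp
        by_contra hcon
        push Not at hcon
        have : NeZero p := ⟨hp.ne_zero⟩
        have hcard : nu (univ.image (ef n t)) p ≤ k + 1 := by
          refine (nu_le_card _ _).trans ?_
          rw [Finset.card_image_of_injective _ (hmono n hn t ht).injective, card_univ,
            Fintype.card_fin]
        have hpL : p ≤ L := by omega
        have huniv : (univ.image (ef n t)).image (fun e : ℕ => (e : ZMod p)) = univ := by
          rw [← Finset.card_eq_iff_eq_univ, ZMod.card]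
          refine le_antisymm ?_ hcon
          exact (Finset.card_le_univ _).trans (by rw [ZMod.card])
        have hz : (-((np (n + j 0) - t : ℕ) : ZMod p)) ∈
            (univ.image (ef n t)).image (fun e : ℕ => (e : ZMod p)) := by
          rw [huniv]; exact mem_univ _
        rw [mem_image] at hz
        obtain ⟨e, he, hez⟩ := hz
        rw [mem_image] at he
        obtain ⟨i, _, rfl⟩ := he
        have hdvd : p ∣ np (n + j i) := by
          rw [← hadd n hn t ht i, ← ZMod.natCast_eq_zero_iff]
          push_cast
          rw [hez]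
          ring
        have heq := (Nat.prime_dvd_prime_iff_eq hp (np_prime _)).mp hdvd
        have h5 := h1 n hn
        have h6 := hle n i
        omega
    · simp only
      rw [mem_filter, mem_Icc]
      have h8 := hbase n hn t ht
      refine ⟨⟨by omega, ?_⟩, ?_⟩
      · apply Nat.le_floor
        refine le_trans ?_ (h2 n hn)
        exact_mod_cast (Nat.sub_le _ _).trans (hle2 n 0)
      · intro e he
        rw [mem_image] at he
        obtain ⟨i, _, rfl⟩ := he
        rw [hadd n hn t ht i]
        exact np_prime _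
  · rintro ⟨n, t⟩ hp ⟨n', t'⟩ hp' h
    rw [mem_coe, mem_product] at hp hp'
    obtain ⟨hn, ht⟩ := hp
    obtain ⟨hn', ht'⟩ := hp'
    simp only at hn ht hn' ht' h
    rw [Sigma.mk.injEq] at h
    obtain ⟨hE, hm⟩ := h
    have hm' := eq_of_heq hm
    have hmin : ∀ n ∈ S, ∀ t ∈ range (L + 1), ∀ e ∈ univ.image (ef n t), t ≤ e := by
      intro n hn t ht e he
      rw [mem_image] at he
      obtain ⟨i, _, rfl⟩ := he
      have := (hmono n hn t ht).monotone (Fin.zero_le i)
      rwa [hef0 n hn t ht] at this
    have ht1 : t ∈ univ.image (ef n t) := by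
      rw [mem_image]; exact ⟨0, mem_univ _, hef0 n hn t ht⟩
    have ht2 : t' ∈ univ.image (ef n' t') := by
      rw [mem_image]; exact ⟨0, mem_univ _, hef0 n' hn' t' ht'⟩
    have htt : t = t' := by
      apply le_antisymm
      · exact hmin n hn t ht t' (by rw [hE]; exact ht2)
      · exact hmin n' hn' t' ht' t (by rw [← hE]; exact ht1)
    subst htt
    have h8 := hbase n hn t ht
    have h9 := hbase n' hn' t ht
    have h10 : np (n + j 0) = np (n' + j 0) := by omega
    have h11 := np_strictMono.injective h10
    have : n = n' := by omega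
    rw [this]

end Pool.Agent.PnPoly.NC
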