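import Pool.Agent.PnPoly.NC.Bound

/-!
# From windows to the counting bound
-/

open Finset Filter
open Pool.Agent.HL26

namespace Pool.Agent.PnPoly.NC

/-- number of `j < J` with `n + j ∈ A` -/
def hits (A : Finset ℕ) (J n : ℕ) : ℕ := ((range J).filter (fun j => n + j ∈ A)).card

lemma hits_le (A : Finset ℕ) (J n : ℕ) : hits A J n ≤ J := by
  unfold hits
  refine (Finset.card_filter_le _ _).trans ?_
  simp

lemma mul_card_le_hits (A : Finset ℕ) (J N : ℕ) (hA : A ⊆ range N) :
    J * A.card ≤ J * J + ∑ n ∈ range N, hits A J n := by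
  have h1 : ∑ n ∈ range N, hits A J n = ∑ j ∈ range J, ((range N).filter (fun n => n + j ∈ A)).card := by
    unfold hits
    simp_rw [Finset.card_filter]
    rw [Finset.sum_comm]
  rw [h1]
  have h2 : ∀ j ∈ range J, A.card ≤ J + ((range N).filter (fun n => n + j ∈ A)).card := by
    intro j hj
    rw [mem_range] at hj
    have h3 : A ⊆ range j ∪ ((range N).filter (fun n => n + j ∈ A)).image (fun n => n + j) := by
      intro a ha
      rw [mem_union]
      by_cases h : a < j
      · left; exact mem_range.mpr h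
      · right
        rw [mem_image]
        refine ⟨a - j, ?_, by omega⟩
        have h5 := mem_range.mp (hA ha)
        rw [mem_filter, mem_range]
        refine ⟨by omega, ?_⟩
        rw [Nat.sub_add_cancel (by omega)]
        exact ha
    refine (Finset.card_le_card h3).trans ((Finset.card_union_le _ _).trans ?_)
    rw [card_range]
    exact Nat.add_le_add hj.le Finset.card_image_le
  calc J * A.card = ∑ j ∈ range J, A.card := by simp
    _ ≤ ∑ j ∈ range J, (J + ((range N).filter (fun n => n + j ∈ A)).card) := Finset.sum_le_sum h2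
    _ = _ := by rw [Finset.sum_add_distrib]; simp

lemma sum_hits_le (A : Finset ℕ) (J N k : ℕ) :
    ∑ n ∈ range N, hits A J n ≤ k * N + J * ((range N).filter (fun n => k + 1 ≤ hits A J n)).card := by
  rw [Finset.card_filter, Finset.mul_sum]
  have h1 : k * N = ∑ n ∈ range N, k := by simp [mul_comm]
  rw [h1, ← Finset.sum_add_distrib]
  refine Finset.sum_le_sum fun n _ => ?_
  split_ifs with h
  · have := hits_le A J n; omega
  · omega

lemma lt_np (n : ℕ) : n < np n := by
  have h := np_strictMono.add_le_nat n 0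
  have h2 : np 0 = 2 := Nat.nth_prime_zero_eq_two
  have h3 : np (n + 0) = np n := rfl
  rw [h2] at h
  omega

lemma card_long (N J L : ℕ) :
    L * ((range N).filter (fun n => np n + L < np (n + J))).card ≤ J * np (N + J) := by
  have h1 : L * ((range N).filter (fun n => np n + L < np (n + J))).card +
      ∑ n ∈ range N, np n ≤ ∑ n ∈ range N, np (n + J) := by
    rw [Finset.card_filter, Finset.mul_sum, ← Finset.sum_add_distrib]
    refine Finset.sum_le_sum fun n _ => ?_
    have h2 : np n ≤ np (n + J) := np_strictMono.monotone (by omega)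
    split_ifs with h
    · omega
    · omega
  have h2 : ∑ n ∈ range N, np (n + J) ≤ ∑ n ∈ range N, np n + J * np (N + J) := by
    clear h1
    induction J with
    | zero => simp
    | succ J ih =>
      have h3 : ∑ n ∈ range N, np (n + (J + 1)) + np J = ∑ n ∈ range N, np (n + J) + np (N + J) := by
        have e1 := Finset.sum_range_succ (fun n => np (n + J)) N
        have e2 := Finset.sum_range_succ' (fun n => np (n + J)) N
        simp only [Nat.zero_add] at e2
        have e3 : ∀ n, n + 1 + J = n + (J + 1) := fun n => by omega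
        simp only [e3] at e2
        omega
      have h4 : np (N + J) ≤ np (N + (J + 1)) := np_strictMono.monotone (by omega)
      have h5 : J * np (N + J) ≤ J * np (N + (J + 1)) := Nat.mul_le_mul_left _ h4
      have h6 : (J + 1) * np (N + (J + 1)) = J * np (N + (J + 1)) + np (N + (J + 1)) := by ring
      omega
  omega

theorem window_main (k : ℕ) (hk : 1 ≤ k) : ∃ C : ℝ, 0 < C ∧ ∃ x0 : ℝ, ∀ N J q L : ℕ, ∀ q1 : ℝ,
    k + 1 ≤ L → 1 ≤ q → 0 < q1 → q1 ≤ q → q1 ≤ L → 1 ≤ J → x0 ≤ np (N + J) → ∀ A : Finset ℕ, A ⊆ range N →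
    (∀ j : Fin (k + 1) → ℕ, StrictMono j → (∀ i, j i < J) → ∀ n, (∀ i, n + j i ∈ A) →
      (q : ℤ) ∣ ∑ i, wt (fun i => (j i : ℤ)) i * (np (n + j i) : ℤ)) →
    (J:ℝ) * A.card ≤ J * J + k * N + J * (J * (np (N + J)) / L + L + J ^ (k + 1) *
      (C * Real.sqrt ((J:ℝ) ^ (k * k) / q1) * ((2 * L + 1) / Real.log (np (N + J))) ^ k *
      (np (N + J) / Real.log (np (N + J))))) := by
  classical
  obtain ⟨C, hC, hw⟩ := window_bound k hk
  rw [eventually_atTop] at hw
  obtain ⟨x1, hw⟩ := hw
  refine ⟨C, hC, max x1 3, ?_⟩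
  intro N J q L q1 hkL hq hq1 hq1q hq1L hJ hx A hA hprop
  have hx1 : x1 ≤ np (N + J) := (le_max_left _ _).trans hx
  have hx3 : (3:ℝ) ≤ np (N + J) := (le_max_right _ _).trans hx
  specialize hw _ hx1
  set x : ℝ := (np (N + J) : ℝ) with hxdef
  have hlog : 0 < Real.log x := Real.log_pos (by linarith)
  set Bad := (range N).filter (fun n => k + 1 ≤ hits A J n) with hBad
  set Long := (range N).filter (fun n => np n + L < np (n + J)) with hLong
  set Small := (range N).filter (fun n => np n ≤ L) with hSmall
  set JJ := (Fintype.piFinset (fun _ : Fin (k + 1) => range J)).filter (fun j => StrictMono j) with hJJ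
  set Sj : (Fin (k + 1) → ℕ) → Finset ℕ := fun j => (range N).filter (fun n => L < np n ∧
    np (n + J) ≤ np n + L ∧ ∀ i, n + j i ∈ A) with hSj
  have hL0 : (0:ℝ) < L := by exact_mod_cast (by omega : 0 < L)
  set B := C * Real.sqrt ((J:ℝ) ^ (k * k) / q1) * ((2 * L + 1) / Real.log x) ^ k *
      (x / Real.log x) with hB
  have hBj : ∀ j ∈ JJ, ((Sj j).card : ℝ) ≤ B := by
    intro j hj
    rw [hJJ, mem_filter, Fintype.mem_piFinset] at hj
    obtain ⟨hjr, hjm⟩ := hj
    have hjJ : ∀ i, j i < J := fun i => mem_range.mp (hjr i)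
    set v : Fin (k + 1) → ℤ := fun i => (j i : ℤ) with hv
    have hvinj : Function.Injective v := by
      intro a b hab
      simp only [hv] at hab
      exact hjm.injective (by exact_mod_cast hab)
    have hb := hw L q q1 hkL hq hq1 hq1q hq1L (wt v) (wt_sum hk v) (wt_zero_ne hvinj) j hjm (Sj j) ?_ ?_ ?_ ?_
    · refine hb.trans ?_
      rw [hB]
      have h5 : |((wt v 0 : ℤ) : ℝ)| ≤ (J:ℝ) ^ (k * k) := by
        have := abs_wt_zero_le hJ (v := v) (fun i => by simp [hv]) (fun i => by
          simp only [hv]; exact_mod_cast hjJ i)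
        exact_mod_cast this
      have h6 : Real.sqrt (|((wt v 0 : ℤ) : ℝ)| / q1) ≤ Real.sqrt ((J:ℝ) ^ (k * k) / q1) :=
        Real.sqrt_le_sqrt (div_le_div_of_nonneg_right h5 hq1.le)
      gcongr
    · intro n hn
      simp only [hSj, mem_filter] at hn
      exact lt_of_lt_of_le hn.2.1 (np_strictMono.monotone (by omega))
    · intro n hn
      simp only [hSj, mem_filter, mem_range] at hn
      rw [hxdef]
      exact_mod_cast np_strictMono.monotone (by have := hjJ (Fin.last k); omega)
    · intro n hn
      simp only [hSj, mem_filter, mem_range] at hn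
      have h5 : np (n + j (Fin.last k)) ≤ np (n + J) :=
        np_strictMono.monotone (by have := hjJ (Fin.last k); omega)
      have h6 : np n ≤ np (n + j 0) := np_strictMono.monotone (by omega)
      omega
    · intro n hn
      simp only [hSj, mem_filter, mem_range] at hn
      exact hprop j hjm hjJ n hn.2.2.2
  have hcover : Bad ⊆ Long ∪ Small ∪ JJ.biUnion Sj := by
    intro n hn
    rw [hBad, mem_filter] at hn
    obtain ⟨hnN, hh⟩ := hn
    rw [mem_union, mem_union]
    by_cases h1 : np n + L < np (n + J)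
    · left; left; rw [hLong, mem_filter]; exact ⟨hnN, h1⟩
    by_cases h2 : np n ≤ L
    · left; right; rw [hSmall, mem_filter]; exact ⟨hnN, h2⟩
    right
    rw [mem_biUnion]
    unfold hits at hh
    set F := (range J).filter (fun j => n + j ∈ A) with hF
    refine ⟨fun i => F.orderEmbOfCardLe hh i, ?_, ?_⟩
    · rw [hJJ, mem_filter, Fintype.mem_piFinset]
      refine ⟨fun i => ?_, fun a b hab => (F.orderEmbOfCardLe hh).strictMono hab⟩
      exact (mem_filter.mp (F.orderEmbOfCardLe_mem hh i)).1
    · simp only [hSj, mem_filter]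
      refine ⟨hnN, by omega, by omega, fun i => ?_⟩
      exact (mem_filter.mp (F.orderEmbOfCardLe_mem hh i)).2
  have hlongc : (Long.card : ℝ) ≤ J * x / L := by
    rw [le_div_iff₀ hL0]
    have := card_long N J L
    rw [hxdef]
    have h5 : ((L * Long.card : ℕ) : ℝ) ≤ ((J * np (N + J) : ℕ) : ℝ) := by exact_mod_cast this
    push_cast at h5
    linarith
  have hsmallc : (Small.card : ℝ) ≤ L := by
    have h5 : Small ⊆ range L := by
      intro n hn
      rw [hSmall, mem_filter] at hn
      rw [mem_range]
      exact lt_of_lt_of_le (lt_np n) hn.2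
    have := Finset.card_le_card h5
    rw [card_range] at this
    exact_mod_cast this
  have hB0 : 0 ≤ B := by rw [hB]; positivity
  have hJJc : (JJ.card : ℝ) ≤ (J:ℝ) ^ (k + 1) := by
    have : JJ.card ≤ J ^ (k + 1) := by
      rw [hJJ]
      refine (Finset.card_filter_le _ _).trans ?_
      rw [Fintype.card_piFinset]
      simp
    exact_mod_cast this
  have hunion : ((JJ.biUnion Sj).card : ℝ) ≤ (J:ℝ) ^ (k + 1) * B := by
    have h5 : ((JJ.biUnion Sj).card : ℝ) ≤ ∑ j ∈ JJ, ((Sj j).card : ℝ) := by
      exact_mod_cast Finset.card_biUnion_le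
    refine h5.trans ((Finset.sum_le_sum hBj).trans ?_)
    rw [Finset.sum_const, nsmul_eq_mul]
    exact mul_le_mul_of_nonneg_right hJJc hB0
  have hBadc : (Bad.card : ℝ) ≤ J * x / L + L + (J:ℝ) ^ (k + 1) * B := by
    have h5 : (Bad.card : ℝ) ≤ Long.card + Small.card + (JJ.biUnion Sj).card := by
      have := (Finset.card_le_card hcover).trans ((Finset.card_union_le _ _).trans
        (Nat.add_le_add_right (Finset.card_union_le _ _) _))
      exact_mod_cast this
    linarith
  have hf1 := mul_card_le_hits A J N hA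
  have hf2 := sum_hits_le A J N k
  have hf3 : ((J * A.card : ℕ) : ℝ) ≤ ((J * J + (k * N + J * Bad.card) : ℕ) : ℝ) := by
    exact_mod_cast hf1.trans (Nat.add_le_add_left hf2 _)
  push_cast at hf3
  have hJ0 : (0:ℝ) ≤ J := by positivity
  have hf4 := mul_le_mul_of_nonneg_left hBadc hJ0
  linarith

end Pool.Agent.PnPoly.NC
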